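import Mathlib
import Pool.Agent.W262.RK.Stm2

/-!
# Tate-Shafarevich groups in families with full 2-torsion: definitions and statements of the parts

Project SH (helper262), problem MP_e23604_nt: the average of `2 ^ rank * #Ш[2]` is bounded in
one-parameter families.
-/

namespace Pool.Agent.W262.SH

open WeierstrassCurve Pool.Agent.W262.RK

open scoped Classical

/-- the algebraic numbers -/
abbrev QB : Type := AlgebraicClosure ℚ

/-- the curve `y² = x (x - A) (x - B)` over `ℚ` -/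
def E (A B : ℤ) : WeierstrassCurve ℚ := ⟨0, -((A : ℚ) + B), 0, (A : ℚ) * B, 0⟩

/-- the points over the field `L` -/
abbrev Pt (W : WeierstrassCurve ℚ) (L : Type) [Field L] [Algebra ℚ L] : Type :=
  (W.baseChange L).toAffine.Point

/-- the action of a homomorphism of fields on the points -/
noncomputable def act (W : WeierstrassCurve ℚ) {F L : Type} [Field F] [Field L] [Algebra ℚ F]
    [Algebra ℚ L] (φ : F →ₐ[ℚ] L) : Pt W F →+ Pt W L :=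
  WeierstrassCurve.Affine.Point.map φ

/-- continuous cocycles -/
def IsCoc (W : WeierstrassCurve ℚ) (f : (QB ≃ₐ[ℚ] QB) → Pt W QB) : Prop :=
  IsLocallyConstant f ∧ ∀ σ τ, f (σ * τ) = f σ + act W σ.toAlgHom (f τ)

/-- coboundaries -/
def IsCob (W : WeierstrassCurve ℚ) (f : (QB ≃ₐ[ℚ] QB) → Pt W QB) : Prop :=
  ∃ P, ∀ σ, f σ = act W σ.toAlgHom P - P

/-- the restriction to the absolute Galois group of `K` is a coboundary; `K` is `ℚ_p` or `ℝ` -/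
def LocTriv (W : WeierstrassCurve ℚ) (K : Type) [Field K] [Algebra ℚ K]
    (f : (QB ≃ₐ[ℚ] QB) → Pt W QB) : Prop :=
  ∀ ι : QB →ₐ[ℚ] AlgebraicClosure K, ∃ P : Pt W (AlgebraicClosure K),
    ∀ (τ : AlgebraicClosure K ≃ₐ[K] AlgebraicClosure K) (σ : QB ≃ₐ[ℚ] QB),
      (τ.toAlgHom.restrictScalars ℚ).comp ι = ι.comp σ.toAlgHom →
      act W ι (f σ) = act W (τ.toAlgHom.restrictScalars ℚ) P - P

theorem sha_zero (W : WeierstrassCurve ℚ) : IsCoc W 0 ∧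
    (∀ (p : ℕ) [Fact p.Prime], LocTriv W ℚ_[p] 0) ∧ LocTriv W ℝ 0 := by
  refine ⟨⟨IsLocallyConstant.const _, fun σ τ => by simp⟩, ?_, ?_⟩
  · intro p _ ι
    exact ⟨0, fun τ σ _ => by simp⟩
  · intro ι
    exact ⟨0, fun τ σ _ => by simp⟩

theorem sha_add (W : WeierstrassCurve ℚ) {f g : (QB ≃ₐ[ℚ] QB) → Pt W QB}
    (hf : IsCoc W f ∧ (∀ (p : ℕ) [Fact p.Prime], LocTriv W ℚ_[p] f) ∧ LocTriv W ℝ f)
    (hg : IsCoc W g ∧ (∀ (p : ℕ) [Fact p.Prime], LocTriv W ℚ_[p] g) ∧ LocTriv W ℝ g) :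
    IsCoc W (f + g) ∧ (∀ (p : ℕ) [Fact p.Prime], LocTriv W ℚ_[p] (f + g)) ∧
      LocTriv W ℝ (f + g) := by
  obtain ⟨⟨hf1, hf2⟩, hf3, hf4⟩ := hf
  obtain ⟨⟨hg1, hg2⟩, hg3, hg4⟩ := hg
  refine ⟨⟨hf1.add hg1, fun σ τ => ?_⟩, ?_, ?_⟩
  · simp only [Pi.add_apply, hf2, hg2, map_add]
    abel
  · intro p _ ι
    obtain ⟨P, hP⟩ := hf3 p ι
    obtain ⟨Q, hQ⟩ := hg3 p ι
    refine ⟨P + Q, fun τ σ h => ?_⟩
    simp only [Pi.add_apply, map_add, hP τ σ h, hQ τ σ h]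
    abel
  · intro ι
    obtain ⟨P, hP⟩ := hf4 ι
    obtain ⟨Q, hQ⟩ := hg4 ι
    refine ⟨P + Q, fun τ σ h => ?_⟩
    simp only [Pi.add_apply, map_add, hP τ σ h, hQ τ σ h]
    abel

theorem sha_neg (W : WeierstrassCurve ℚ) {f : (QB ≃ₐ[ℚ] QB) → Pt W QB}
    (hf : IsCoc W f ∧ (∀ (p : ℕ) [Fact p.Prime], LocTriv W ℚ_[p] f) ∧ LocTriv W ℝ f) :
    IsCoc W (-f) ∧ (∀ (p : ℕ) [Fact p.Prime], LocTriv W ℚ_[p] (-f)) ∧ LocTriv W ℝ (-f) := by
  obtain ⟨⟨hf1, hf2⟩, hf3, hf4⟩ := hf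
  refine ⟨⟨hf1.neg, fun σ τ => ?_⟩, ?_, ?_⟩
  · simp only [Pi.neg_apply, hf2, map_neg]
    abel
  · intro p _ ι
    obtain ⟨P, hP⟩ := hf3 p ι
    refine ⟨-P, fun τ σ h => ?_⟩
    simp only [Pi.neg_apply, map_neg, hP τ σ h]
    abel
  · intro ι
    obtain ⟨P, hP⟩ := hf4 ι
    refine ⟨-P, fun τ σ h => ?_⟩
    simp only [Pi.neg_apply, map_neg, hP τ σ h]
    abel

/-- the cocycles that are locally trivial at all places of `ℚ` -/
noncomputable def shaCoc (W : WeierstrassCurve ℚ) : AddSubgroup ((QB ≃ₐ[ℚ] QB) → Pt W QB) where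
  carrier := {f | IsCoc W f ∧ (∀ (p : ℕ) [Fact p.Prime], LocTriv W ℚ_[p] f) ∧ LocTriv W ℝ f}
  zero_mem' := sha_zero W
  add_mem' := sha_add W
  neg_mem' := sha_neg W

theorem cob_zero (W : WeierstrassCurve ℚ) : IsCob W 0 := ⟨0, fun σ => by simp⟩

theorem cob_add (W : WeierstrassCurve ℚ) {f g : (QB ≃ₐ[ℚ] QB) → Pt W QB} (hf : IsCob W f)
    (hg : IsCob W g) : IsCob W (f + g) := by
  obtain ⟨P, hP⟩ := hf
  obtain ⟨Q, hQ⟩ := hg
  refine ⟨P + Q, fun σ => ?_⟩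
  simp only [Pi.add_apply, map_add, hP, hQ]
  abel

theorem cob_neg (W : WeierstrassCurve ℚ) {f : (QB ≃ₐ[ℚ] QB) → Pt W QB} (hf : IsCob W f) :
    IsCob W (-f) := by
  obtain ⟨P, hP⟩ := hf
  refine ⟨-P, fun σ => ?_⟩
  simp only [Pi.neg_apply, map_neg, hP]
  abel

/-- the coboundaries -/
noncomputable def cob (W : WeierstrassCurve ℚ) : AddSubgroup ((QB ≃ₐ[ℚ] QB) → Pt W QB) where
  carrier := {f | IsCob W f}
  zero_mem' := cob_zero W
  add_mem' := cob_add W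
  neg_mem' := cob_neg W

/-- the Tate-Shafarevich group of `W` over `ℚ` -/
abbrev Sha (W : WeierstrassCurve ℚ) : Type := shaCoc W ⧸ (cob W).addSubgroupOf (shaCoc W)

/-- the `p`-adic condition for the pair `(e1, e2)` of square classes -/
def LocSol (p : ℕ) [Fact p.Prime] (A B e1 e2 : ℤ) : Prop :=
  ∃ x : ℚ, x ≠ 0 ∧ x ≠ A ∧ x ≠ B ∧ IsSquare ((x * e1 : ℚ) : ℚ_[p]) ∧
    IsSquare (((x - A) * e2 : ℚ) : ℚ_[p]) ∧ IsSquare (((x - B) * (e1 * e2) : ℚ) : ℚ_[p])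

/-- the pairs of squarefree integers that satisfy the conditions at all the odd primes -/
def SelS (A B : ℤ) : Set (ℤ × ℤ) :=
  {e | Squarefree e.1 ∧ Squarefree e.2 ∧ ∀ (p : ℕ) [Fact p.Prime], p ≠ 2 → LocSol p A B e.1 e.2}

/-- LOCL2: the local conditions (generalises `LOCL`, file `Pool/Agent/W342/RK2/LocL.lean`; the
points there are rational, here `x (x - A) (x - B)` is only a square in `ℚ_p`) -/
def LOCL2 : Prop := ∀ (c : Fin 4) (κ : Fin 3 → ℤ) (neg : Bool) (p : ℕ) [Fact p.Prime] (A B : ℤ),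
  p ≠ 2 → (∀ k, ¬ (p : ℤ) ∣ κ k) → LocH c κ neg p A B →
  ∀ e1 e2 : ℤ, Squarefree e1 → Squarefree e2 → LocSol p A B e1 e2 →
    LL c κ neg p (dv p e1) (dv p e2) (sgn p e1) (sgn p e2)

/-- GOOD2: primes of good reduction (generalises `GOOD`, file `Pool/Agent/W22/RK/Loc.lean`) -/
def GOOD2 : Prop := ∀ (p : ℕ) [Fact p.Prime] (A B : ℤ), ¬ (p : ℤ) ∣ 2 * A * B * (A - B) →
  ∀ e1 e2 : ℤ, Squarefree e1 → Squarefree e2 → LocSol p A B e1 e2 →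
    ¬ (p : ℤ) ∣ e1 ∧ ¬ (p : ℤ) ∣ e2

/-- DESC5: the number of the pairs in `SelS` (compare `desc4`, file
`Pool/Agent/W214/RK2/Desc4.lean`) -/
def DESC5 : Prop := ∀ (m : ℕ) (L : ℕ → Bool → Bool → Bool → Bool → Prop) (A B : ℤ), A ≠ 0 →
  B ≠ 0 → A ≠ B → Odd m → Squarefree m → (∀ p, p.Prime → p ∣ m → XC (L p)) →
  (∀ (p : ℕ) [Fact p.Prime], p ∣ m → ∀ e1 e2 : ℤ, Squarefree e1 → Squarefree e2 →
    LocSol p A B e1 e2 → L p (dv p e1) (dv p e2) (sgn p e1) (sgn p e2)) →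
  (SelS A B).Finite ∧ (SelS A B).ncard ≤
    4 ^ (((2 * A * B * (A - B)).natAbs.primeFactors.filter (fun q => ¬ q ∣ m)).card + 2) * NL m L

/-- the curve `y² = x (x - a) (x - b)` -/
def IsW {K : Type} [Field K] (W : WeierstrassCurve K) (a b : K) : Prop :=
  W.a₁ = 0 ∧ W.a₂ = -(a + b) ∧ W.a₃ = 0 ∧ W.a₄ = a * b ∧ W.a₆ = 0

/-- DIV: division by `2` over algebraically closed fields (compare
`Pool.Agent.H437R2.Man.MW.add_double`) -/
def DIV : Prop := ∀ (K : Type) [Field K] [CharZero K] [IsAlgClosed K] (W : WeierstrassCurve K)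
  (a b : K), IsW W a b → a ≠ 0 → b ≠ 0 → a ≠ b → ∀ P : W.toAffine.Point, ∃ Q, P = Q + Q

/-- the square root of `x (2 P) - e`, with `c = (e - e') (e - e'')` -/
noncomputable def gg {K : Type} [Field K] (W : WeierstrassCurve K) (e c : K) :
    W.toAffine.Point → K
  | 0 => 0
  | .some u v _ => ((u - e) ^ 2 - c) / (2 * v)

/-- `T` is zero or has abscissa `e` -/
def IsX {K : Type} [Field K] (W : WeierstrassCurve K) (e : K) (T : W.toAffine.Point) : Prop :=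
  T = 0 ∨ ∃ (y : K) (h : W.toAffine.Nonsingular e y), T = .some e y h

/-- DUP: duplication and translation by points of order two -/
def DUP : Prop := ∀ (K : Type) [Field K] [CharZero K] (W : WeierstrassCurve K) (a b : K),
  IsW W a b → a ≠ 0 → b ≠ 0 → a ≠ b →
  ∀ (u v : K) (h : W.toAffine.Nonsingular u v), v ≠ 0 →
  (∃ (x y : K) (h' : W.toAffine.Nonsingular x y),
    (.some u v h : W.toAffine.Point) + .some u v h = .some x y h' ∧
    x = gg W 0 (a * b) (.some u v h) ^ 2 ∧ x - a = gg W a (a * (a - b)) (.some u v h) ^ 2) ∧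
  ∀ T : W.toAffine.Point, T + T = 0 →
    (∃ (u' v' : K) (h' : W.toAffine.Nonsingular u' v'), v' ≠ 0 ∧
      (.some u v h : W.toAffine.Point) + T = .some u' v' h') ∧
    (IsX W 0 T → gg W 0 (a * b) (.some u v h + T) = gg W 0 (a * b) (.some u v h)) ∧
    (¬ IsX W 0 T → gg W 0 (a * b) (.some u v h + T) = - gg W 0 (a * b) (.some u v h)) ∧
    (IsX W a T → gg W a (a * (a - b)) (.some u v h + T) = gg W a (a * (a - b)) (.some u v h)) ∧
    (¬ IsX W a T →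
      gg W a (a * (a - b)) (.some u v h + T) = - gg W a (a * (a - b)) (.some u v h))

/-- LOCX: from a `p`-adic point to `LocSol` -/
def LOCX : Prop := ∀ (p : ℕ) [Fact p.Prime], p ≠ 2 → ∀ (Ω : Type) [Field Ω] [Algebra ℚ_[p] Ω]
  [Algebra ℚ Ω] [IsScalarTower ℚ ℚ_[p] Ω] [IsAlgClosed Ω] [Algebra.IsAlgebraic ℚ_[p] Ω]
  (A B : ℤ), A ≠ 0 → B ≠ 0 → A ≠ B → ∀ (e1 e2 : ℤ), e1 ≠ 0 → e2 ≠ 0 → ∀ s1 s2 : Ω,
  s1 ^ 2 = e1 → s2 ^ 2 = e2 → ∀ R : Pt (E A B) Ω,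
  (∀ τ : Ω ≃ₐ[ℚ_[p]] Ω, ∃ T : Pt (E A B) Ω, T + T = 0 ∧
    act (E A B) (τ.toAlgHom.restrictScalars ℚ) R = R + T ∧
    (τ s1 = s1 ↔ IsX ((E A B).baseChange Ω) 0 T) ∧
    (τ s2 = s2 ↔ IsX ((E A B).baseChange Ω) (A : Ω) T)) →
  LocSol p A B e1 e2

/-- KUM: quadratic characters of the absolute Galois group of `ℚ` -/
def KUM : Prop := ∀ χ : (QB ≃ₐ[ℚ] QB) → Bool, IsLocallyConstant χ →
  (∀ σ τ, χ (σ * τ) = xor (χ σ) (χ τ)) →
  ∃ e : ℤ, Squarefree e ∧ ∀ s : QB, s ^ 2 = e → ∀ σ : QB ≃ₐ[ℚ] QB, σ s = s ↔ χ σ = false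

/-- the Selmer homomorphisms (only the conditions at the odd primes) -/
def IsSel (A B : ℤ) (h : (QB ≃ₐ[ℚ] QB) → Pt (E A B) QB) : Prop :=
  IsLocallyConstant h ∧ (∀ σ, h σ + h σ = 0) ∧ (∀ σ τ, h (σ * τ) = h σ + h τ) ∧
  ∀ (p : ℕ) [Fact p.Prime], p ≠ 2 → LocTriv (E A B) ℚ_[p] h

/-- SH1: Selmer homomorphisms and square classes -/
def SH1 : Prop := ∀ A B : ℤ, A ≠ 0 → B ≠ 0 → A ≠ B → (SelS A B).Finite →
  {h | IsSel A B h}.Finite ∧ {h | IsSel A B h}.ncard ≤ (SelS A B).ncard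

/-- SH2: the rank and the Tate-Shafarevich group -/
def SH2 : Prop := ∀ A B : ℤ, A ≠ 0 → B ≠ 0 → A ≠ B → {h | IsSel A B h}.Finite →
  Finite {c : Sha (E A B) // c + c = 0} ∧
  2 ^ Module.finrank ℤ (E A B).toAffine.Point * Nat.card {c : Sha (E A B) // c + c = 0} ≤
    {h | IsSel A B h}.ncard

end Pool.Agent.W262.SH
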