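import Mathlib
import Pool.Agent.W262.RK.Stm2

/-!
# All moments in families of quadratic twists: definitions and statements of the parts

Project SM (helper262): the `k`-th moment of the number of the Selmer pairs of the twists
`y² = x (x - a D(t)) (x - b D(t))`, `D` a product of linear forms (all the forms have class `3`).
-/

namespace Pool.Agent.W262.SH

open Finset Pool.Agent.W262.RK

/-- the pairing of `χ` and `v` -/
def pr {k : ℕ} (x v : Fin k → Bool × Bool) : ZMod 2 :=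
  ∑ r, ((if (x r).1 && (v r).1 then 1 else 0) + (if (x r).2 && (v r).2 then 1 else 0))

/-- the index set: `(j, v, χ)` with `pr χ v = 0` -/
def IK (J : Type) (k : ℕ) : Type :=
  {i : J × (Fin k → Bool × Bool) × (Fin k → Bool × Bool) // pr i.2.2 i.2.1 = 0}

noncomputable instance (J : Type) [Fintype J] (k : ℕ) : Fintype (IK J k) := by
  unfold IK
  infer_instance

noncomputable instance (J : Type) (k : ℕ) : DecidableEq (IK J k) := Classical.decEq _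

/-- the symbol `(d i / d i')` occurs if `pr χ_{i'} v_i = 1` -/
def LK {J : Type} {k : ℕ} (i i' : IK J k) : Bool := decide (pr i'.1.2.2 i.1.2.1 = 1)

/-- the constants of one component -/
def cK (κ : Fin 3 → ℤ) (v x : Bool × Bool) : ℤ :=
  (if x.1 then (if v = (true, false) then κ 0 else if v = (false, true) then κ 0 * κ 1 else
    if v = (true, true) then κ 1 else 1) else 1) *
  (if x.2 then (if v = (true, false) then κ 0 * κ 2 else if v = (false, true) then - κ 0 else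
    if v = (true, true) then - κ 2 else 1) else 1)

/-- the constants -/
def κK {J : Type} {k : ℕ} (κ : J → Fin 3 → ℤ) (i : IK J k) : ℤ :=
  ∏ r, cK (κ i.1.1) (i.1.2.1 r) (i.1.2.2 r)

/-- the average over the signs of the `k`-th power of `NL`; all the forms have class `3` -/
noncomputable def NBK {J : Type} [Fintype J] [DecidableEq J] (κ : J → Fin 3 → ℤ) (k : ℕ)
    (s : J → ℕ) : ℝ :=
  (1 / 2) ^ (P3 (fun _ : J => (3 : Fin 4)) s).card *
    ∑ E ∈ (P3 (fun _ : J => (3 : Fin 4)) s).powerset,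
      (NL (∏ j, s j) (LLs (fun _ : J => (3 : Fin 4)) κ s E) : ℝ) ^ k

/-- SM-EXP: expansion of the average into symbols (compare `EXP4`, files
`Pool/Agent/W762/RK2/EXP4a.lean`, `EXP4b.lean`). -/
def EXPK : Prop := ∀ (J : Type) [Fintype J] [DecidableEq J] (κ : J → Fin 3 → ℤ) (k c z y : ℕ),
  2 ≤ z → (∀ j i, κ j i ≠ 0) → (∀ j i, (κ j i).natAbs ≤ z) →
  ∑ s ∈ Tup J z y, NBK κ k s * ∏ j, gw 1 c (s j) =
    ∑ d ∈ Tup (IK J k) z y, (∏ i, gw ((1 / 4) ^ k) c (d i)) * Sym LK (κK κ) d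

/-- SM-COMB: the largest unlinked set (compare `COMB4`). -/
def COMBK : Prop := ∀ (J : Type) [Fintype J] [DecidableEq J] (k : ℕ) (U : Finset (IK J k)),
  (∀ i ∈ U, ∀ j ∈ U, LK i j = LK j i) → (U.card : ℝ) * (1 / 4) ^ k ≤ Fintype.card J

/-- SM-SUB: the average grows at most by the factor `4 ^ k` for each prime (compare `SUBB`, file
`Pool/Agent/W125/RK2/SUBB.lean`). -/
def SUBBK : Prop := ∀ (J : Type) [Fintype J] [DecidableEq J] (κ : J → Fin 3 → ℤ) (k z y : ℕ),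
  2 ≤ z → (∀ j i, κ j i ≠ 0) → (∀ j i, (κ j i).natAbs ≤ z) →
  ∀ s e : J → ℕ, (fun j => s j * e j) ∈ Tup J z y →
    NBK κ k (fun j => s j * e j) ≤ (4 ^ k) ^ (∑ j, (e j).primeFactors.card) * NBK κ k s

/-- SM-RS: `RS` with the base `b` instead of `4` (compare `Pool/Agent/W405/RK2/RS.lean`). -/
def RSB : Prop := ∀ (b : ℝ), 1 ≤ b → ∀ (J : Type) [Fintype J] [DecidableEq J] (z : ℕ)
  (G : (J → ℕ) → ℝ) (C' lam : ℝ), 2 * Fintype.card J + 2 ≤ z → 0 ≤ lam → (∀ s, 0 ≤ G s) →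
  (∀ y, z < y → ∀ s e : J → ℕ, (fun j => s j * e j) ∈ Tup J z y →
    G (fun j => s j * e j) ≤ b ^ (∑ j, (e j).primeFactors.card) * G s) →
  (∀ y, z < y → ∑ s ∈ Tup J z y, G s * ∏ j, gw 1 (Fintype.card J) (s j) ≤
    C' * (Real.log y) ^ (Fintype.card J)) →
  ∃ C : ℝ, ∀ y, z < y →
    ∑ s ∈ Tup J z y, G s * (∏ j, gw 1 (Fintype.card J) (s j)) *
      (∏ j, (s j : ℝ)) ^ (lam / Real.log y) ≤ C * (Real.log y) ^ (Fintype.card J)

/-- SM-RV: `RV` with the base `b` instead of `4` (compare `Pool/Agent/W591/RK2/RVRU.lean`). -/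
def RVB : Prop := ∀ (b : ℝ), 1 ≤ b → ∀ (J : Type) [Fintype J] [DecidableEq J] (z : ℕ) (lam : ℝ),
  2 * Fintype.card J + 2 ≤ z → 0 ≤ lam → ∃ C : ℝ, ∀ y, z < y →
    ∑ v ∈ Tup J z y, (∏ j, b ^ (v j).primeFactors.card * (gw 1 (Fintype.card J) (v j) / v j)) *
      (∏ j, (v j : ℝ)) ^ (lam / Real.log y) ≤ C

/-- `NT` with the base `b` instead of `4`. -/
def NTB : Prop := ∀ (b : ℝ), 1 ≤ b → ∀ (J : Type) [Fintype J] [DecidableEq J] (α β : J → ℤ)
  (z : ℕ) (G : (J → ℕ) → ℝ) (R : ℕ → ℝ) (C C' D : ℝ) (K y0 : ℕ), Bg α β z → (∀ s, 0 ≤ G s) →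
  (∀ t, 0 ≤ R t) → 0 ≤ C → 1 ≤ D → 1 ≤ K →
  (∀ y, z < y → ∀ s e : J → ℕ, (fun j => s j * e j) ∈ Tup J z y →
    G (fun j => s j * e j) ≤ b ^ (∑ j, (e j).primeFactors.card) * G s) →
  (∀ y, z < y → ∑ s ∈ Tup J z y, G s * ∏ j, gw 1 (Fintype.card J) (s j) ≤
    C' * (Real.log y) ^ (Fintype.card J)) →
  (∀ X y Y k : ℕ, y0 ≤ y → z < y → y ^ K ≤ X → X < (y + 1) ^ k → ∀ s ∈ Tup J z y,
    ∀ v ∈ Tup J z y, ∀ u ∈ Tup J y Y, (∏ j, s j * v j * u j) ^ 8 ≤ X →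
    ∑ t ∈ (Icc 1 X).filter (fun t : ℕ => (∀ j, ff α β t j ≠ 0) ∧ s1 α β z y t = s ∧
      s2 α β z y t = v ∧ ∀ j, (u j : ℤ) ∣ ff α β t j), R t ≤
      C * D ^ k * X * (G s * ∏ j, gw 1 (Fintype.card J) (s j)) *
        (∏ j, b ^ (v j).primeFactors.card * (gw 1 (Fintype.card J) (v j) / v j)) *
        (∏ j, 1 / (u j : ℝ)) / (Real.log y) ^ (Fintype.card J)) →
  ∃ C2 : ℝ, ∀ X : ℕ, ∑ t ∈ (Icc 1 X).filter (fun t : ℕ => ∀ j, ff α β t j ≠ 0), R t ≤ C2 * X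

end Pool.Agent.W262.SH
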