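import Mathlib
import Pool.Agent.W262.SH.Avg
import Pool.Agent.W262.SH.NTK

/-!
# The moments of the number of the Selmer pairs of quadratic twists
-/

namespace Pool.Agent.W262.SH

open Finset Pool.Agent.W262.RK

variable {J : Type} [Fintype J] [DecidableEq J]

omit [Fintype J] [DecidableEq J] in
lemma LK_self {e : ℕ} (i : IK J e) : LK i i = false := by
  unfold LK
  rw [i.2]
  decide

lemma cK_ne (κ : Fin 3 → ℤ) (h : ∀ k, κ k ≠ 0) (v x : Bool × Bool) : cK κ v x ≠ 0 := by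
  unfold cK
  refine mul_ne_zero ?_ ?_
  · split_ifs
    · exact h _
    · exact mul_ne_zero (h _) (h _)
    · exact h _
    · exact one_ne_zero
    · exact one_ne_zero
  · split_ifs
    · exact mul_ne_zero (h _) (h _)
    · exact neg_ne_zero.2 (h _)
    · exact neg_ne_zero.2 (h _)
    · exact one_ne_zero
    · exact one_ne_zero

omit [Fintype J] [DecidableEq J] in
lemma κK_ne {e : ℕ} (κ : J → Fin 3 → ℤ) (h : ∀ j k, κ j k ≠ 0) (i : IK J e) : κK κ i ≠ 0 :=
  prod_ne_zero_iff.2 fun r _ => cK_ne _ (h _) _ _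

/-- the average of `NBK` is bounded by `(log y) ^ |J|` -/
theorem mak (hexp : EXPK) (hcomb : COMBK) (κ : J → Fin 3 → ℤ) (e c : ℕ) (he : 1 ≤ e)
    (hκ : ∀ j k, κ j k ≠ 0) :
    ∃ z0 : ℕ, ∀ z, z0 ≤ z → ∃ C : ℝ, ∀ y, z < y →
      ∑ s ∈ Tup J z y, NBK κ e s * ∏ j, gw 1 c (s j) ≤
        C * (Real.log y) ^ (Fintype.card J) := by
  obtain ⟨z0, hz0⟩ := at_thm (IK J e) (fun _ => (1 / 4 : ℝ) ^ e) LK (κK κ) c
    ((Fintype.card J : ℕ) : ℝ)
    (fun _ => ⟨by positivity, by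
      calc (1 / 4 : ℝ) ^ e ≤ (1 / 4 : ℝ) ^ 1 :=
            pow_le_pow_of_le_one (by norm_num) (by norm_num) he
        _ ≤ 1 / 2 := by norm_num⟩) LK_self (κK_ne κ hκ)
    (fun U hU => by
      rw [sum_const, nsmul_eq_mul]
      exact hcomb J e U hU)
  refine ⟨max z0 (2 + ∑ j, ∑ k, (κ j k).natAbs), fun z hz => ?_⟩
  obtain ⟨C, hC⟩ := hz0 z (le_trans (le_max_left _ _) hz)
  refine ⟨C, fun y hy => ?_⟩
  have hz2 : 2 + ∑ j, ∑ k, (κ j k).natAbs ≤ z := le_trans (le_max_right _ _) hz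
  rw [hexp J κ e c z y (by omega) hκ (fun j k => by
    have h1 := single_le_sum (f := fun k => (κ j k).natAbs) (fun _ _ => Nat.zero_le _) (mem_univ k)
    have h2 := single_le_sum (f := fun j => ∑ k, (κ j k).natAbs) (fun _ _ => Nat.zero_le _)
      (mem_univ j)
    omega)]
  refine (le_trans (le_abs_self _) (hC y hy)).trans (le_of_eq ?_)
  rw [Real.rpow_natCast]

/-- the moments of the number of the Selmer pairs -/
theorem avgk (hdesc : DESC5) (hxc : XCL) (hloc : LOCL2) (hexp : EXPK) (hcomb : COMBK)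
    (hsubb : SUBBK) (hcnt : CNT4) (hnt : NTB) (e : ℕ) (he : 1 ≤ e)
    (a : Fin 3 → ℤ) (α β : J → ℤ) (ha : ∀ k, a k ≠ 0) (hα : ∀ j, α j ≠ 0)
    (hR : ∀ j l, j ≠ l → Res α β j l ≠ 0)
    (hF : ∀ t : ℤ, F4 (fun _ : J => (3 : Fin 4)) a α β t 0 - F4 (fun _ : J => (3 : Fin 4)) a α β t 1
      = F4 (fun _ : J => (3 : Fin 4)) a α β t 2) :
    ∃ C : ℝ, ∀ X : ℕ, ∑ t ∈ (Icc 1 X).filter (fun t : ℕ => ∀ j, ff α β t j ≠ 0),
      ((SelS (F4 (fun _ : J => (3 : Fin 4)) a α β t 0)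
        (F4 (fun _ : J => (3 : Fin 4)) a α β t 1)).ncard : ℝ) ^ e ≤ C * X := by
  classical
  set cls : J → Fin 4 := fun _ => 3 with hcls
  set κ := kap4 cls a α β with hκdef
  have hκ0 : ∀ j k, κ j k ≠ 0 := kap4_ne cls a α β hα ha hR
  set N := Fintype.card J with hN
  obtain ⟨z0, hz0⟩ := mak hexp hcomb κ e N he hκ0
  set z : ℕ := z0 + (2 * N + 2) + ∑ k, (a k).natAbs + ∑ j, (α j).natAbs +
    ∑ j, ∑ l, (Res α β j l).natAbs + ∑ j, ∑ k, (κ j k).natAbs with hz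
  have hB : Big4 a α β z := by
    refine ⟨⟨by omega, fun p hp hzp => ⟨fun j h => ?_, fun j l hjl h => ?_⟩⟩,
      fun p hp hzp k h => ?_⟩
    · have h1 := Nat.le_of_dvd (Int.natAbs_pos.2 (hα j)) (Int.natCast_dvd.1 h)
      have h2 := single_le_sum (f := fun j => (α j).natAbs) (fun _ _ => Nat.zero_le _) (mem_univ j)
      omega
    · have h1 := Nat.le_of_dvd (Int.natAbs_pos.2 (hR j l hjl)) (Int.natCast_dvd.1 h)
      have h2 := single_le_sum (f := fun l => (Res α β j l).natAbs) (fun _ _ => Nat.zero_le _)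
        (mem_univ l)
      have h3 := single_le_sum (f := fun j => ∑ l, (Res α β j l).natAbs) (fun _ _ => Nat.zero_le _)
        (mem_univ j)
      omega
    · have h1 := Nat.le_of_dvd (Int.natAbs_pos.2 (ha k)) (Int.natCast_dvd.1 h)
      have h2 := single_le_sum (f := fun k => (a k).natAbs) (fun _ _ => Nat.zero_le _) (mem_univ k)
      omega
  have hκz : ∀ j k, (κ j k).natAbs ≤ z := by
    intro j k
    have h1 := single_le_sum (f := fun k => (κ j k).natAbs) (fun _ _ => Nat.zero_le _) (mem_univ k)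
    have h2 := single_le_sum (f := fun j => ∑ k, (κ j k).natAbs) (fun _ _ => Nat.zero_le _)
      (mem_univ j)
    omega
  have hz2 : 2 ≤ z := by omega
  obtain ⟨C', hC'⟩ := hz0 z (by omega)
  obtain ⟨C, K, y0, hC0, hK1, hcn⟩ := hcnt J α β cls z hB.1
  set y1 : ℕ := y0 + ∑ j, ((α j).natAbs + (β j).natAbs) + 1 with hy1
  refine hnt (4 ^ e) (one_le_pow₀ (by norm_num)) J α β z (NBK κ e)
        (fun t => ((SelS (F4 cls a α β t 0) (F4 cls a α β t 1)).ncard : ℝ) ^ e)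
        (C * (4 ^ (z + 2)) ^ e) C'
        ((16 ^ N) ^ e) K y1 hB.1 (fun s => ?_) (fun t => by positivity) (by positivity)
        (one_le_pow₀ (one_le_pow₀ (by norm_num))) hK1
        (fun y hy s r hse => hsubb J κ e z y hz2 hκ0 hκz s r hse)
        hC' ?_
  · unfold NBK
    exact mul_nonneg (by positivity) (sum_nonneg fun _ _ => by positivity)
  intro X y Y k hy0 hzy hyK hk s hs v hv u hu h8
  have hy00 : y0 ≤ y := by omega
  have hyX : y ≤ X := le_trans (Nat.le_self_pow (by omega) y) hyK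
  have hX1 : 1 ≤ X := by omega
  set S := (Icc 1 X).filter (fun t : ℕ => (∀ j, ff α β t j ≠ 0) ∧ s1 α β z y t = s ∧
    s2 α β z y t = v ∧ ∀ j, (u j : ℤ) ∣ ff α β t j) with hS
  set g : Finset ℕ → ℝ := fun E => (NL (∏ j, s j) (LLs cls κ s E) : ℝ) ^ e with hg
  have hg0 : ∀ E, 0 ≤ g E := fun E => by rw [hg]; positivity
  have h1 : ∀ t ∈ S, ((SelS (F4 cls a α β t 0) (F4 cls a α β t 1)).ncard : ℝ) ^ e ≤
      (4 ^ (z + 2)) ^ e * ((16 ^ N) ^ e) ^ k * (4 ^ e) ^ (∑ j, (v j).primeFactors.card) *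
        g (neg3 cls α β t s) := by
    intro t ht
    rw [hS, mem_filter] at ht
    obtain ⟨ht1, ht0, hts, htv, _⟩ := ht
    have hr := sel4 hdesc hxc hloc (X := X) (y := y) (k := k) hB ha hκ0 hκz (hF t) ht0 (fun j => by
        unfold ff
        have h3 := Int.natAbs_add_le (α j * (t : ℤ)) (β j)
        rw [Int.natAbs_mul, Int.natAbs_natCast] at h3
        have h4 := single_le_sum (f := fun j => (α j).natAbs + (β j).natAbs)
          (fun _ _ => Nat.zero_le _) (mem_univ j)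
        have h5 := (mem_Icc.1 ht1).2
        have h6 : (α j).natAbs + (β j).natAbs ≤ X := by omega
        nlinarith [Nat.zero_le (α j).natAbs, Nat.zero_le (β j).natAbs,
          Nat.mul_le_mul_left (α j).natAbs h5, Nat.mul_le_mul_right X h6,
          Nat.le_mul_of_pos_right (β j).natAbs (show 0 < X by omega)]) hX1 (by omega) hk
    rw [hts, htv] at hr
    replace hr := hr.2
    have hr' : ((SelS (F4 cls a α β t 0) (F4 cls a α β t 1)).ncard : ℝ) ≤
        4 ^ (z + 2) * (16 ^ N) ^ k * 4 ^ (∑ j, (v j).primeFactors.card) *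
        (NL (∏ j, s j) (LLs cls κ s (neg3 cls α β t s)) : ℝ) := by
      exact_mod_cast hr
    refine (pow_le_pow_left₀ (Nat.cast_nonneg _) hr' e).trans (le_of_eq ?_)
    rw [mul_pow, mul_pow, mul_pow, pow_right_comm ((16 : ℝ) ^ N) k e,
      pow_right_comm (4 : ℝ) (∑ j, (v j).primeFactors.card) e]
  have hneg : ∀ t ∈ S, neg3 cls α β t s ∈ (P3 cls s).powerset := by
    intro t _
    rw [mem_powerset]
    exact filter_subset _ _
  have h2 : ∑ t ∈ S, g (neg3 cls α β t s) =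
      ∑ E ∈ (P3 cls s).powerset, ((S.filter (fun t : ℕ => neg3 cls α β t s = E)).card : ℝ) * g E := by
    rw [← sum_fiberwise_of_maps_to hneg]
    refine sum_congr rfl fun E _ => ?_
    rw [← nsmul_eq_mul, ← sum_const]
    refine sum_congr rfl fun t ht => ?_
    rw [(mem_filter.1 ht).2]
  set Q : ℝ := C * X * (1 / 2) ^ (P3 cls s).card * (∏ j, gw 1 N (s j)) *
        (∏ j, gw 1 N (v j) / v j) * (∏ j, 1 / (u j : ℝ)) / (Real.log y) ^ N with hQ
  have h3 : ∀ E ∈ (P3 cls s).powerset,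
      ((S.filter (fun t : ℕ => neg3 cls α β t s = E)).card : ℝ) * g E ≤ Q * g E := by
    intro E _
    refine mul_le_mul_of_nonneg_right ?_ (hg0 E)
    refine le_trans ?_ (hcn X y Y hy00 hzy hyK s hs v hv u hu h8 E)
    have h4 : S.filter (fun t : ℕ => neg3 cls α β t s = E) ⊆
        (Icc 1 X).filter (fun t : ℕ => s1 α β z y t = s ∧ s2 α β z y t = v ∧
          (∀ j, (u j : ℤ) ∣ ff α β t j) ∧ neg3 cls α β t s = E) := by
      intro t ht
      rw [mem_filter, hS, mem_filter] at ht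
      rw [mem_filter]
      exact ⟨ht.1.1, ht.1.2.2.1, ht.1.2.2.2.1, ht.1.2.2.2.2, ht.2⟩
    exact_mod_cast card_le_card h4
  calc ∑ t ∈ S, ((SelS (F4 cls a α β t 0) (F4 cls a α β t 1)).ncard : ℝ) ^ e
      ≤ ∑ t ∈ S, (4 ^ (z + 2)) ^ e * ((16 ^ N) ^ e) ^ k *
          (4 ^ e) ^ (∑ j, (v j).primeFactors.card) * g (neg3 cls α β t s) := sum_le_sum h1
    _ = (4 ^ (z + 2)) ^ e * ((16 ^ N) ^ e) ^ k * (4 ^ e) ^ (∑ j, (v j).primeFactors.card) *
          ∑ E ∈ (P3 cls s).powerset,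
            ((S.filter (fun t : ℕ => neg3 cls α β t s = E)).card : ℝ) * g E := by
        rw [← mul_sum, h2]
    _ ≤ (4 ^ (z + 2)) ^ e * ((16 ^ N) ^ e) ^ k * (4 ^ e) ^ (∑ j, (v j).primeFactors.card) *
          ∑ E ∈ (P3 cls s).powerset, Q * g E :=
        mul_le_mul_of_nonneg_left (sum_le_sum h3) (by positivity)
    _ = _ := by
        have e1 : NBK κ e s = (1 / 2) ^ (P3 cls s).card * ∑ E ∈ (P3 cls s).powerset, g E := rfl
        have e2 : (∏ j, ((4 : ℝ) ^ e) ^ (v j).primeFactors.card * (gw 1 N (v j) / v j)) =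
            (4 ^ e) ^ (∑ j, (v j).primeFactors.card) * ∏ j, (gw 1 N (v j) / v j) := by
          rw [prod_mul_distrib, prod_pow_eq_pow_sum]
        rw [← mul_sum, e1, e2, hQ]
        ring

/-- the moments, with the landed parts -/
theorem avgk_all (hdesc : DESC5) (hloc : LOCL2) (hexp : EXPK) (hcomb : COMBK) (hsubb : SUBBK)
    (hrs : RSB) (hrv : RVB) (e : ℕ) (he : 1 ≤ e)
    (a : Fin 3 → ℤ) (α β : J → ℤ) (ha : ∀ k, a k ≠ 0) (hα : ∀ j, α j ≠ 0)
    (hR : ∀ j l, j ≠ l → Res α β j l ≠ 0)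
    (hF : ∀ t : ℤ, F4 (fun _ : J => (3 : Fin 4)) a α β t 0 - F4 (fun _ : J => (3 : Fin 4)) a α β t 1
      = F4 (fun _ : J => (3 : Fin 4)) a α β t 2) :
    ∃ C : ℝ, ∀ X : ℕ, ∑ t ∈ (Icc 1 X).filter (fun t : ℕ => ∀ j, ff α β t j ≠ 0),
      ((SelS (F4 (fun _ : J => (3 : Fin 4)) a α β t 0)
        (F4 (fun _ : J => (3 : Fin 4)) a α β t 1)).ncard : ℝ) ^ e ≤ C * X :=
  avgk hdesc Pool.Agent.W342.RK2.xcl hloc hexp hcomb hsubb
    (Pool.Agent.W372.RK2.cnt4_of Pool.Agent.W358.RK2.svr)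
    (K.ntb_of hrs hrv Pool.Agent.W591.RK2.ru Pool.Agent.W358.RK2.gr)
    e he a α β ha hα hR hF

end Pool.Agent.W262.SH
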