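import Mathlib
import Pool.Agent.W262.SH.Avg

/-!
# Families with full 2-torsion: the average of `2 ^ rank * #Ш[2]`

Project SH (helper262): the families with an arbitrary index type of the common factors.
-/

namespace Pool.Agent.W262.SH

open Finset Pool.Agent.W262.RK


/-- `F k (t) = a k * (∏ i, (γ i * t + δ i)) * ∏ i, (α k i * t + β k i)` -/
def Fm {n : ℕ} {J : Type} [Fintype J] (a : Fin 3 → ℤ) (γ δ : J → ℤ) (α β : Fin 3 → Fin n → ℤ)
    (k : Fin 3) (t : ℤ) : ℤ :=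
  a k * (∏ i, (γ i * t + δ i)) * ∏ i, (α k i * t + β k i)

open scoped Classical in
/-- the weight -/
noncomputable def wt (A B : ℤ) : ℝ :=
  (2 : ℝ) ^ Module.finrank ℤ (E A B).toAffine.Point * Nat.card {c : Sha (E A B) // c + c = 0}

theorem wt_nonneg (A B : ℤ) : 0 ≤ wt A B := by
  unfold wt
  positivity

theorem wt_le (hdesc : DESC5) (h1 : SH1) (h2 : SH2) {A B : ℤ} (hA : A ≠ 0) (hB : B ≠ 0)
    (hAB : A ≠ B) : wt A B ≤ (SelS A B).ncard := by
  obtain ⟨hf, hle⟩ := h1 A B hA hB hAB (selS_finite hdesc hA hB hAB)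
  obtain ⟨_, hle2⟩ := h2 A B hA hB hAB hf
  unfold wt
  exact_mod_cast hle2.trans hle

theorem half_fam (hdesc : DESC5) (hloc : LOCL2) (h1 : SH1) (h2 : SH2) {n : ℕ} {J : Type}
    [Fintype J] (a : Fin 3 → ℤ) (γ δ : J → ℤ) (α β : Fin 3 → Fin n → ℤ)
    (ha : ∀ k, a k ≠ 0) (hα : ∀ k i, α k i ≠ 0) (hγ : ∀ i, γ i ≠ 0)
    (hh1 : ∀ k i l j, (k, i) ≠ (l, j) → α k i * β l j ≠ α l j * β k i)
    (hh2 : ∀ i j, i ≠ j → γ i * δ j ≠ γ j * δ i)
    (hh3 : ∀ k i j, α k i * δ j ≠ γ j * β k i)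
    (hF : ∀ t : ℤ, Fm a γ δ α β 0 t - Fm a γ δ α β 1 t = Fm a γ δ α β 2 t) :
    ∃ C : ℝ, 0 ≤ C ∧ ∀ X : ℕ,
      ∑ t ∈ (Icc 1 X).filter (fun t : ℕ => ∀ k, Fm a γ δ α β k (t : ℤ) ≠ 0),
        wt (Fm a γ δ α β 0 (t : ℤ)) (Fm a γ δ α β 1 (t : ℤ)) ≤ C * X := by
  classical
  set cls : (Fin 3 × Fin n) ⊕ J → Fin 4 := Sum.elim (fun j => j.1.castSucc) (fun _ => 3)
    with hcls
  set A : (Fin 3 × Fin n) ⊕ J → ℤ := Sum.elim (fun j => α j.1 j.2) γ with hA
  set B : (Fin 3 × Fin n) ⊕ J → ℤ := Sum.elim (fun j => β j.1 j.2) δ with hB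
  have hcs : ∀ (k : Fin 3), k.castSucc ≠ (3 : Fin 4) := by decide
  have hfs : ∀ k : Fin 3, fs cls k =
      (univ.image (fun i : Fin n => (Sum.inl (k, i) : (Fin 3 × Fin n) ⊕ J))) ∪
      (univ.image (fun i : J => (Sum.inr i : (Fin 3 × Fin n) ⊕ J))) := by
    intro k
    ext j
    unfold fs
    rw [mem_filter, mem_union, mem_image, mem_image]
    rcases j with ⟨l, i⟩ | i
    · simp only [hcls, Sum.elim_inl, mem_univ, true_and, hcs, or_false, reduceCtorEq,
        exists_false, Sum.inl.injEq, Prod.mk.injEq]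
      constructor
      · intro h
        exact ⟨i, (Fin.castSucc_injective _ h).symm, rfl⟩
      · rintro ⟨i', h, _⟩
        rw [h]
    · simp only [hcls, Sum.elim_inr, mem_univ, true_and, or_true, reduceCtorEq, exists_false,
        Sum.inr.injEq, exists_eq, false_or]
  have hFF : ∀ (t : ℤ) (k : Fin 3), F4 cls a A B t k = Fm a γ δ α β k t := by
    intro t k
    unfold F4 Fm
    rw [hfs, prod_union, prod_image (fun i _ j _ hij => by simpa using hij),
      prod_image (fun i _ j _ hij => by simpa using hij)]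
    · simp only [ff, hA, hB, Sum.elim_inl, Sum.elim_inr]
      ring
    · rw [disjoint_left]
      intro j hj hj'
      rw [mem_image] at hj hj'
      obtain ⟨_, _, rfl⟩ := hj
      obtain ⟨_, _, h⟩ := hj'
      exact absurd h (by simp)
  have hcard : ∀ k : Fin 4, k ≠ 3 → (univ.filter (fun j => cls j = k)).card = n := by
    intro k hk
    have hk' : ∃ k' : Fin 3, k = k'.castSucc := by
      revert k
      decide
    obtain ⟨k', rfl⟩ := hk'
    have h : univ.filter (fun j => cls j = k'.castSucc) =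
        univ.image (fun i : Fin n => (Sum.inl (k', i) : (Fin 3 × Fin n) ⊕ J)) := by
      ext j
      rw [mem_filter, mem_image]
      rcases j with ⟨l, i⟩ | i
      · simp only [hcls, Sum.elim_inl, mem_univ, true_and, Sum.inl.injEq, Prod.mk.injEq]
        constructor
        · intro h
          exact ⟨i, (Fin.castSucc_injective _ h).symm, rfl⟩
        · rintro ⟨i', h, _⟩
          rw [h]
      · simp only [hcls, Sum.elim_inr, mem_univ, true_and, reduceCtorEq, exists_false, iff_false]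
        exact fun h => hcs k' h.symm
    rw [h, card_image_of_injective _ (fun i j hij => by simpa using hij)]
    simp
  obtain ⟨C, hC⟩ := avg5_all hdesc hloc cls n hcard a A B
    ha
    (by
      rintro (j | j)
      · exact hα _ _
      · exact hγ _)
    (by
      rintro (⟨k, i⟩ | i) (⟨l, j⟩ | j) hne
      · exact sub_ne_zero.2 (hh1 k i l j (by simpa using hne))
      · exact sub_ne_zero.2 (hh3 k i j)
      · exact sub_ne_zero.2 (fun h => hh3 l j i h.symm)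
      · exact sub_ne_zero.2 (hh2 i j (by simpa using hne)))
    (fun t => by rw [hFF, hFF, hFF]; exact hF t)
  refine ⟨max C 0, le_max_right _ _, fun X => ?_⟩
  have h := hC X
  have hset : (Icc 1 X).filter (fun t : ℕ => ∀ k, Fm a γ δ α β k (t : ℤ) ≠ 0) =
      (Icc 1 X).filter (fun t : ℕ => ∀ j, ff A B t j ≠ 0) := by
    ext t
    rw [mem_filter, mem_filter]
    refine and_congr_right fun _ => ⟨fun h => ?_, fun h k => ?_⟩
    · rintro (⟨k, i⟩ | i) h0
      · apply h k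
        unfold Fm
        rw [prod_eq_zero (mem_univ i) (show α k i * (t : ℤ) + β k i = 0 from h0), mul_zero]
      · apply h 0
        unfold Fm
        rw [prod_eq_zero (mem_univ i) (show γ i * (t : ℤ) + δ i = 0 from h0), mul_zero, zero_mul]
    · unfold Fm
      refine mul_ne_zero (mul_ne_zero (ha k) (prod_ne_zero_iff.2 fun i _ => ?_))
        (prod_ne_zero_iff.2 fun i _ => ?_)
      · exact h (Sum.inr i)
      · exact h (Sum.inl (k, i))
  calc _ ≤ ∑ t ∈ (Icc 1 X).filter (fun t : ℕ => ∀ j, ff A B t j ≠ 0),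
        ((SelS (F4 cls a A B t 0) (F4 cls a A B t 1)).ncard : ℝ) := by
        rw [← hset]
        refine sum_le_sum fun t ht => ?_
        have ht' := (mem_filter.1 ht).2
        rw [hFF, hFF]
        refine wt_le hdesc h1 h2 (ht' 0) (ht' 1) ?_
        intro h3
        apply ht' 2
        rw [← hF, h3, sub_self]
    _ ≤ C * X := h
    _ ≤ max C 0 * X := mul_le_mul_of_nonneg_right (le_max_left _ _) (Nat.cast_nonneg _)

/-- the average of `2 ^ rank * #Ш[2]` is bounded -/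
theorem fam (hdesc : DESC5) (hloc : LOCL2) (h1 : SH1) (h2 : SH2) {n : ℕ} {J : Type}
    [Fintype J] (a : Fin 3 → ℤ) (γ δ : J → ℤ) (α β : Fin 3 → Fin n → ℤ)
    (ha : ∀ k, a k ≠ 0) (hα : ∀ k i, α k i ≠ 0) (hγ : ∀ i, γ i ≠ 0)
    (hh1 : ∀ k i l j, (k, i) ≠ (l, j) → α k i * β l j ≠ α l j * β k i)
    (hh2 : ∀ i j, i ≠ j → γ i * δ j ≠ γ j * δ i)
    (hh3 : ∀ k i j, α k i * δ j ≠ γ j * β k i)
    (hF : ∀ t : ℤ, Fm a γ δ α β 0 t - Fm a γ δ α β 1 t = Fm a γ δ α β 2 t) :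
    ∃ C : ℝ, 0 ≤ C ∧ ∀ X : ℕ, 1 ≤ X →
      ∑ t ∈ (Icc (-(X : ℤ)) X).filter (fun t : ℤ => ∀ k, Fm a γ δ α β k t ≠ 0),
        wt (Fm a γ δ α β 0 t) (Fm a γ δ α β 1 t) ≤ C * X := by
  classical
  obtain ⟨C1, hC10, hC1⟩ := half_fam hdesc hloc h1 h2 a γ δ α β ha hα hγ hh1 hh2 hh3 hF
  have hneg : ∀ (k : Fin 3) (t : ℤ), Fm a (fun i => -γ i) δ (fun k i => -α k i) β k t =
      Fm a γ δ α β k (-t) := by
    intro k t
    unfold Fm
    congr 1
    · congr 1
      refine prod_congr rfl fun i _ => ?_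
      ring
    · refine prod_congr rfl fun i _ => ?_
      ring
  obtain ⟨C2, hC20, hC2⟩ := half_fam hdesc hloc h1 h2 a (fun i => -γ i) δ (fun k i => -α k i) β
    ha (fun k i => neg_ne_zero.2 (hα k i)) (fun i => neg_ne_zero.2 (hγ i))
    (fun k i l j h => by
      intro h3
      apply hh1 k i l j h
      linarith)
    (fun i j h => by
      intro h3
      apply hh2 i j h
      linarith)
    (fun k i j => by
      intro h4
      apply hh3 k i j
      linarith) (fun t => by rw [hneg, hneg, hneg]; exact hF (-t))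
  set P : ℤ → ℝ := fun t => wt (Fm a γ δ α β 0 t) (Fm a γ δ α β 1 t) with hP
  have hP0 : ∀ t, 0 ≤ P t := fun t => wt_nonneg _ _
  refine ⟨C1 + C2 + P 0, by linarith [hP0 0], fun X hX => ?_⟩
  have hXr : (1 : ℝ) ≤ X := by exact_mod_cast hX
  have e1 : ∑ t ∈ (Icc 1 X).filter (fun t : ℕ => ∀ k, Fm a γ δ α β k (t : ℤ) ≠ 0),
      P (t : ℤ) ≤ C1 * X := hC1 X
  have e2 : ∑ t ∈ (Icc 1 X).filter (fun t : ℕ => ∀ k, Fm a γ δ α β k (-(t : ℤ)) ≠ 0),
      P (-(t : ℤ)) ≤ C2 * X := by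
    have h := hC2 X
    simp only [hneg] at h
    exact h
  have hsub : (Icc (-(X : ℤ)) X).filter (fun t : ℤ => ∀ k, Fm a γ δ α β k t ≠ 0) ⊆
      (((Icc 1 X).filter (fun t : ℕ => ∀ k, Fm a γ δ α β k (t : ℤ) ≠ 0)).image
        (fun t : ℕ => (t : ℤ)) ∪
      ((Icc 1 X).filter (fun t : ℕ => ∀ k, Fm a γ δ α β k (-(t : ℤ)) ≠ 0)).image
        (fun t : ℕ => -(t : ℤ))) ∪ {0} := by
    intro t ht
    rw [mem_filter, mem_Icc] at ht
    obtain ⟨ht, ht2⟩ := ht
    rw [mem_union, mem_union, mem_image, mem_image, mem_singleton]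
    rcases lt_trichotomy t 0 with h | h | h
    · left; right
      have e : -((t.natAbs : ℕ) : ℤ) = t := by omega
      refine ⟨t.natAbs, mem_filter.2 ⟨mem_Icc.2 (by omega), ?_⟩, e⟩
      rw [e]
      exact ht2
    · right; exact h
    · left; left
      have e : ((t.natAbs : ℕ) : ℤ) = t := by omega
      refine ⟨t.natAbs, mem_filter.2 ⟨mem_Icc.2 (by omega), ?_⟩, e⟩
      rw [e]
      exact ht2
  have hun : ∀ S T : Finset ℤ, ∑ t ∈ S ∪ T, P t ≤ ∑ t ∈ S, P t + ∑ t ∈ T, P t := by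
    intro S T
    rw [← sum_union_inter]
    exact le_add_of_nonneg_right (sum_nonneg fun t _ => hP0 t)
  have e3 : ∑ t ∈ ((Icc 1 X).filter (fun t : ℕ => ∀ k, Fm a γ δ α β k (t : ℤ) ≠ 0)).image
      (fun t : ℕ => (t : ℤ)), P t =
      ∑ t ∈ (Icc 1 X).filter (fun t : ℕ => ∀ k, Fm a γ δ α β k (t : ℤ) ≠ 0), P (t : ℤ) :=
    sum_image (fun i _ j _ hij => by exact_mod_cast hij)
  have e4 : ∑ t ∈ ((Icc 1 X).filter (fun t : ℕ => ∀ k, Fm a γ δ α β k (-(t : ℤ)) ≠ 0)).image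
      (fun t : ℕ => -(t : ℤ)), P t =
      ∑ t ∈ (Icc 1 X).filter (fun t : ℕ => ∀ k, Fm a γ δ α β k (-(t : ℤ)) ≠ 0), P (-(t : ℤ)) :=
    sum_image (fun i _ j _ hij => by simpa using hij)
  show ∑ t ∈ (Icc (-(X : ℤ)) X).filter (fun t : ℤ => ∀ k, Fm a γ δ α β k t ≠ 0), P t ≤
    (C1 + C2 + P 0) * X
  have h5 := (sum_le_sum_of_subset_of_nonneg hsub (fun t _ _ => hP0 t)).trans
    ((hun _ _).trans (add_le_add (hun _ _) le_rfl))
  rw [e3, e4, sum_singleton] at h5
  have h6 : P 0 ≤ P 0 * X := le_mul_of_one_le_right (hP0 0) hXr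
  linarith

end Pool.Agent.W262.SH
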