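import Mathlib
import Pool.Agent.W262.SH.Stm

/-!
# Tate-Shafarevich groups over multiquadratic fields: definitions and statements of the parts

Project SHB (helper262), problem MP_78d38b_nt: ranks and the 2-primary parts of the
Tate-Shafarevich groups of `E_t` over `K_t = ℚ(√D_1(t), ..., √D_n(t))`.
-/

namespace Pool.Agent.W262.SH

open WeierstrassCurve

open scoped Classical

section abs

variable {G M : Type} [Group G] [AddCommGroup M] [DistribMulAction G M]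

/-- the corestriction twisted by the sign character `ε`; only the values of `f` on `H` matter -/
noncomputable def cor (H : Subgroup G) [Fintype (G ⧸ H)] (ε : G →* ℤˣ) (f : G → M) (σ : G) : M :=
  ∑ q : G ⧸ H, ((ε ((σ • q).out) : ℤˣ) : ℤ) • ((σ • q).out • f ((σ • q).out⁻¹ * σ * q.out))

end abs

/-- SB-ABS: corestriction -/
def ABSC : Prop := ∀ (G M : Type) [Group G] [AddCommGroup M] [DistribMulAction G M]
  (H : Subgroup G) [Fintype (G ⧸ H)] (f : G → M),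
  (∀ σ ∈ H, ∀ τ ∈ H, f (σ * τ) = f σ + σ • f τ) →
  -- cocycle
  (∀ ε : G →* ℤˣ, (∀ h ∈ H, ε h = 1) → ∀ σ τ,
    cor H ε f (σ * τ) = cor H ε f σ + ((ε σ : ℤˣ) : ℤ) • (σ • cor H ε f τ)) ∧
  -- coboundaries
  (∀ ε : G →* ℤˣ, (∀ h ∈ H, ε h = 1) → (∃ P : M, ∀ h ∈ H, f h = h • P - P) →
    ∃ Q : M, ∀ σ, cor H ε f σ = ((ε σ : ℤˣ) : ℤ) • (σ • Q) - Q) ∧
  -- restriction of the sum
  (H.Normal → ∀ (I : Type) [Fintype I] (ε : I → G →* ℤˣ), (∀ i, ∀ h ∈ H, ε i h = 1) →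
    (∀ g, g ∉ H → ∑ i, ((ε i g : ℤˣ) : ℤ) = 0) →
    ∃ Q : M, ∀ σ ∈ H, ∑ i, cor H (ε i) f σ = (Fintype.card I) • f σ + (σ • Q - Q)) ∧
  -- local triviality
  (∀ (Δ M' : Type) [Group Δ] [AddCommGroup M'] [DistribMulAction Δ M'] (a : Δ →* G)
    (ι : M →+ M'), (∀ δ m, ι (a δ • m) = δ • ι m) →
    (∀ g : G, ∃ P : M', ∀ δ : Δ, ∀ h ∈ H, a δ * g = g * h → ι (g • f h) = δ • P - P) →
    ∀ ε : G →* ℤˣ, (∀ h ∈ H, ε h = 1) →
    ∃ P : M', ∀ δ : Δ, ι (cor H ε f (a δ)) = ((ε (a δ) : ℤˣ) : ℤ) • (δ • P) - P)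

/-- SB-TWI: quadratic twists, `(x, y) ↦ (D x, D s y)` with `s ^ 2 = D` -/
def TWI : Prop := ∀ A B D : ℤ, A ≠ 0 → B ≠ 0 → A ≠ B → D ≠ 0 →
  ∃ θ : ∀ (L : Type) [Field L] [Algebra ℚ L], L → Pt (E A B) L → Pt (E (D * A) (D * B)) L,
  ∀ (L : Type) [Field L] [Algebra ℚ L] (s : L), s ^ 2 = (D : L) →
    (∀ P Q, θ L s (P + Q) = θ L s P + θ L s Q) ∧ Function.Bijective (θ L s) ∧
    (∀ P, θ L (-s) P = - θ L s P) ∧
    ∀ (L' : Type) [Field L'] [Algebra ℚ L'] (φ : L →ₐ[ℚ] L') (P : Pt (E A B) L),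
      act (E (D * A) (D * B)) φ (θ L s P) = θ L' (φ s) (act (E A B) φ P)

/-- SB-GRP: a homomorphism with kernel killed by `2 ^ n` -/
def GRP : Prop := ∀ (n r : ℕ) (G H : Type) [AddCommGroup G] [AddCommGroup H] (Φ : G →+ H),
  (∀ c, Φ c = 0 → (2 ^ n) • c = 0) → ∀ j : (Fin r → ZMod (2 ^ (n + 1))) →+ G,
  Function.Injective j → Finite {h : H // h + h = 0} → 2 ^ r ≤ Nat.card {h : H // h + h = 0}

/-- the field `ℚ(√D_1, ..., √D_n)` -/
noncomputable def KD {n : ℕ} (D : Fin n → ℤ) : IntermediateField ℚ QB :=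
  IntermediateField.adjoin ℚ {r : QB | ∃ i, r ^ 2 = (D i : QB)}

/-- the restriction to the absolute Galois groups of the completions of `L` at the places over `K`
is a coboundary; `K` is `ℚ_p` or `ℝ`. The places of `L` over `K` are given by the embeddings `ι` of
`ℚ̄` in the algebraic closure of `K`; `σ` runs through the elements of `Gal(ℚ̄/L)` that are
restrictions of automorphisms `τ`. -/
def LocTrivK (W : WeierstrassCurve ℚ) (L : IntermediateField ℚ QB) (K : Type) [Field K]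
    [Algebra ℚ K] (f : L.fixingSubgroup → Pt W QB) : Prop :=
  ∀ ι : QB →ₐ[ℚ] AlgebraicClosure K, ∃ P : Pt W (AlgebraicClosure K),
    ∀ (τ : AlgebraicClosure K ≃ₐ[K] AlgebraicClosure K) (σ : L.fixingSubgroup),
      (τ.toAlgHom.restrictScalars ℚ).comp ι = ι.comp (σ : QB ≃ₐ[ℚ] QB).toAlgHom →
      act W ι (f σ) = act W (τ.toAlgHom.restrictScalars ℚ) P - P

/-- the cocycles of `Gal(ℚ̄/L)` that are locally trivial at all places of `L` -/
def IsShaK (W : WeierstrassCurve ℚ) (L : IntermediateField ℚ QB)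
    (f : L.fixingSubgroup → Pt W QB) : Prop :=
  (IsLocallyConstant f ∧ ∀ σ τ, f (σ * τ) = f σ + act W (σ : QB ≃ₐ[ℚ] QB).toAlgHom (f τ)) ∧
    (∀ (p : ℕ) [Fact p.Prime], LocTrivK W L ℚ_[p] f) ∧ LocTrivK W L ℝ f

theorem shaK_zero (W : WeierstrassCurve ℚ) (L : IntermediateField ℚ QB) : IsShaK W L 0 := by
  refine ⟨⟨IsLocallyConstant.const _, fun σ τ => by simp⟩, ?_, ?_⟩
  · intro p _ ι
    exact ⟨0, fun τ σ _ => by simp⟩
  · intro ι
    exact ⟨0, fun τ σ _ => by simp⟩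

theorem shaK_add (W : WeierstrassCurve ℚ) (L : IntermediateField ℚ QB)
    {f g : L.fixingSubgroup → Pt W QB} (hf : IsShaK W L f) (hg : IsShaK W L g) :
    IsShaK W L (f + g) := by
  obtain ⟨⟨hf1, hf2⟩, hf3, hf4⟩ := hf
  obtain ⟨⟨hg1, hg2⟩, hg3, hg4⟩ := hg
  refine ⟨⟨hf1.add hg1, fun σ τ => ?_⟩, ?_, ?_⟩
  · simp only [Pi.add_apply, hf2, hg2, map_add]
    abel
  · intro p _ ι
    obtain ⟨P, hP⟩ := hf3 p ι
    obtain ⟨Q, hQ⟩ := hg3 p ι
    refine ⟨P + Q, fun τ σ h => ?_⟩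
    simp only [Pi.add_apply, map_add, hP τ σ h, hQ τ σ h]
    abel
  · intro ι
    obtain ⟨P, hP⟩ := hf4 ι
    obtain ⟨Q, hQ⟩ := hg4 ι
    refine ⟨P + Q, fun τ σ h => ?_⟩
    simp only [Pi.add_apply, map_add, hP τ σ h, hQ τ σ h]
    abel

theorem shaK_neg (W : WeierstrassCurve ℚ) (L : IntermediateField ℚ QB)
    {f : L.fixingSubgroup → Pt W QB} (hf : IsShaK W L f) : IsShaK W L (-f) := by
  obtain ⟨⟨hf1, hf2⟩, hf3, hf4⟩ := hf
  refine ⟨⟨hf1.neg, fun σ τ => ?_⟩, ?_, ?_⟩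
  · simp only [Pi.neg_apply, hf2, map_neg]
    abel
  · intro p _ ι
    obtain ⟨P, hP⟩ := hf3 p ι
    refine ⟨-P, fun τ σ h => ?_⟩
    simp only [Pi.neg_apply, map_neg, hP τ σ h]
    abel
  · intro ι
    obtain ⟨P, hP⟩ := hf4 ι
    refine ⟨-P, fun τ σ h => ?_⟩
    simp only [Pi.neg_apply, map_neg, hP τ σ h]
    abel

/-- the locally trivial cocycles of `Gal(ℚ̄/L)` -/
noncomputable def shaCocK (W : WeierstrassCurve ℚ) (L : IntermediateField ℚ QB) :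
    AddSubgroup (L.fixingSubgroup → Pt W QB) where
  carrier := {f | (IsLocallyConstant f ∧
    ∀ σ τ, f (σ * τ) = f σ + act W (σ : QB ≃ₐ[ℚ] QB).toAlgHom (f τ)) ∧
    (∀ (p : ℕ) [Fact p.Prime], LocTrivK W L ℚ_[p] f) ∧ LocTrivK W L ℝ f}
  zero_mem' := shaK_zero W L
  add_mem' := shaK_add W L
  neg_mem' := shaK_neg W L

theorem cobK_add (W : WeierstrassCurve ℚ) (L : IntermediateField ℚ QB)
    {f g : L.fixingSubgroup → Pt W QB}
    (hf : ∃ P, ∀ σ, f σ = act W (σ : QB ≃ₐ[ℚ] QB).toAlgHom P - P)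
    (hg : ∃ P, ∀ σ, g σ = act W (σ : QB ≃ₐ[ℚ] QB).toAlgHom P - P) :
    ∃ P, ∀ σ, (f + g) σ = act W (σ : QB ≃ₐ[ℚ] QB).toAlgHom P - P := by
  obtain ⟨P, hP⟩ := hf
  obtain ⟨Q, hQ⟩ := hg
  refine ⟨P + Q, fun σ => ?_⟩
  simp only [Pi.add_apply, map_add, hP, hQ]
  abel

theorem cobK_neg (W : WeierstrassCurve ℚ) (L : IntermediateField ℚ QB)
    {f : L.fixingSubgroup → Pt W QB}
    (hf : ∃ P, ∀ σ, f σ = act W (σ : QB ≃ₐ[ℚ] QB).toAlgHom P - P) :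
    ∃ P, ∀ σ, (-f) σ = act W (σ : QB ≃ₐ[ℚ] QB).toAlgHom P - P := by
  obtain ⟨P, hP⟩ := hf
  refine ⟨-P, fun σ => ?_⟩
  simp only [Pi.neg_apply, map_neg, hP]
  abel

theorem cobK_zero (W : WeierstrassCurve ℚ) (L : IntermediateField ℚ QB) :
    ∃ P, ∀ σ : L.fixingSubgroup, (0 : L.fixingSubgroup → Pt W QB) σ =
      act W (σ : QB ≃ₐ[ℚ] QB).toAlgHom P - P :=
  ⟨0, fun σ => by simp⟩

/-- the coboundaries -/
noncomputable def cobK (W : WeierstrassCurve ℚ) (L : IntermediateField ℚ QB) :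
    AddSubgroup (L.fixingSubgroup → Pt W QB) where
  carrier := {f | ∃ P, ∀ σ, f σ = act W (σ : QB ≃ₐ[ℚ] QB).toAlgHom P - P}
  zero_mem' := cobK_zero W L
  add_mem' := cobK_add W L
  neg_mem' := cobK_neg W L

/-- the Tate-Shafarevich group of `W` over the number field `L` -/
abbrev ShaK (W : WeierstrassCurve ℚ) (L : IntermediateField ℚ QB) : Type :=
  shaCocK W L ⧸ (cobK W L).addSubgroupOf (shaCocK W L)

/-- SB-PHI: the Tate-Shafarevich group over the multiquadratic field and the twists -/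
def PHI : Prop := ∀ (n : ℕ) (D : Fin n → ℤ) (A B : ℤ), A ≠ 0 → B ≠ 0 → A ≠ B →
  (∀ i, D i ≠ 0) →
  ∃ Φ : ShaK (E A B) (KD D) →+
    (∀ S : Finset (Fin n), Sha (E ((∏ i ∈ S, D i) * A) ((∏ i ∈ S, D i) * B))),
  ∀ c, Φ c = 0 → (2 ^ n) • c = 0

/-- SB-RKK: the rank over the multiquadratic field and the ranks of the twists -/
def RKK : Prop := ∀ (n : ℕ) (D : Fin n → ℤ) (A B : ℤ), A ≠ 0 → B ≠ 0 → A ≠ B →
  (∀ i, D i ≠ 0) →
  Module.finrank ℤ (Pt (E A B) (KD D)) ≤ ∑ S : Finset (Fin n),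
    Module.finrank ℤ (E ((∏ i ∈ S, D i) * A) ((∏ i ∈ S, D i) * B)).toAffine.Point

end Pool.Agent.W262.SH
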