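import Mathlib
import Pool.Agent.W262.SH.Fam
import Pool.Agent.W262.SH.StmB

/-!
# Families over multiquadratic fields

Project SHB (helper262): the quadratic twists of the family by the products of the `D_i(t)`, and
the bound for `2 ^ ((rank + r) / 2 ^ l)`.
-/

namespace Pool.Agent.W262.SH

open Finset Pool.Agent.W262.RK

/-- `D i (t) = b i * ∏ (μ j * t + ν j)`, the product over the `j` with `g j = i` -/
def Dm {l : ℕ} {T : Type} [Fintype T] (b : Fin l → ℤ) (g : T → Fin l) (μ ν : T → ℤ) (i : Fin l)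
    (t : ℤ) : ℤ :=
  b i * ∏ j ∈ univ.filter (fun j => g j = i), (μ j * t + ν j)

theorem prod_Dm {l : ℕ} {T : Type} [Fintype T] (b : Fin l → ℤ) (g : T → Fin l) (μ ν : T → ℤ)
    (S : Finset (Fin l)) (t : ℤ) :
    ∏ i ∈ S, Dm b g μ ν i t = (∏ i ∈ S, b i) * ∏ j : {j : T // g j ∈ S}, (μ j * t + ν j) := by
  classical
  unfold Dm
  rw [prod_mul_distrib]
  congr 1
  have h1 : ∏ j : {j : T // g j ∈ S}, (μ j * t + ν j) =
      ∏ j ∈ univ.filter (fun j => g j ∈ S), (μ j * t + ν j) := by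
    rw [← prod_subtype_eq_prod_filter, subtype_univ]
  rw [h1, ← prod_fiberwise_of_maps_to (s := univ.filter (fun j => g j ∈ S)) (t := S) (g := g)
    (fun j hj => (mem_filter.1 hj).2)]
  refine prod_congr rfl fun i hi => ?_
  refine prod_congr ?_ fun _ _ => rfl
  ext j
  simp only [mem_filter, mem_univ, true_and]
  exact ⟨fun h => ⟨by rw [h]; exact hi, h⟩, fun h => h.2⟩

/-- the sum over the twisted families -/
theorem famS (hdesc : DESC5) (hloc : LOCL2) (h1 : SH1) (h2 : SH2) {n l : ℕ} {J T : Type}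
    [Fintype J] [Fintype T] (a : Fin 3 → ℤ) (γ δ : J → ℤ) (α β : Fin 3 → Fin n → ℤ)
    (b : Fin l → ℤ) (g : T → Fin l) (μ ν : T → ℤ)
    (ha : ∀ k, a k ≠ 0) (hα : ∀ k i, α k i ≠ 0) (hγ : ∀ i, γ i ≠ 0) (hb : ∀ i, b i ≠ 0)
    (hμ : ∀ j, μ j ≠ 0)
    (hh1 : ∀ k i l j, (k, i) ≠ (l, j) → α k i * β l j ≠ α l j * β k i)
    (hh2 : ∀ i j, i ≠ j → γ i * δ j ≠ γ j * δ i)
    (hh3 : ∀ k i j, α k i * δ j ≠ γ j * β k i)
    (hh4 : ∀ i j, i ≠ j → μ i * ν j ≠ μ j * ν i)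
    (hh5 : ∀ k i j, α k i * ν j ≠ μ j * β k i)
    (hh6 : ∀ i j, γ i * ν j ≠ μ j * δ i)
    (hF : ∀ t : ℤ, Fm a γ δ α β 0 t - Fm a γ δ α β 1 t = Fm a γ δ α β 2 t) :
    ∃ C : ℝ, 0 ≤ C ∧ ∀ X : ℕ, 1 ≤ X → ∀ S : Finset (Fin l),
      ∑ t ∈ (Icc (-(X : ℤ)) X).filter
        (fun t : ℤ => (∀ k, Fm a γ δ α β k t ≠ 0) ∧ ∀ i, Dm b g μ ν i t ≠ 0),
        wt ((∏ i ∈ S, Dm b g μ ν i t) * Fm a γ δ α β 0 t)
          ((∏ i ∈ S, Dm b g μ ν i t) * Fm a γ δ α β 1 t) ≤ C * X := by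
  classical
  have key : ∀ S : Finset (Fin l), ∃ C : ℝ, 0 ≤ C ∧ ∀ X : ℕ, 1 ≤ X →
      ∑ t ∈ (Icc (-(X : ℤ)) X).filter
        (fun t : ℤ => (∀ k, Fm a γ δ α β k t ≠ 0) ∧ ∀ i, Dm b g μ ν i t ≠ 0),
        wt ((∏ i ∈ S, Dm b g μ ν i t) * Fm a γ δ α β 0 t)
          ((∏ i ∈ S, Dm b g μ ν i t) * Fm a γ δ α β 1 t) ≤ C * X := by
    intro S
    have hS : ∀ (k : Fin 3) (t : ℤ), Fm (J := J ⊕ {j : T // g j ∈ S})
        (fun k => (∏ i ∈ S, b i) * a k) (Sum.elim γ (fun j => μ j)) (Sum.elim δ (fun j => ν j))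
        α β k t = (∏ i ∈ S, Dm b g μ ν i t) * Fm a γ δ α β k t := by
      intro k t
      rw [prod_Dm]
      unfold Fm
      rw [Fintype.prod_sum_type]
      simp only [Sum.elim_inl, Sum.elim_inr]
      ring
    obtain ⟨C, hC0, hC⟩ := fam hdesc hloc h1 h2 (J := J ⊕ {j : T // g j ∈ S})
      (fun k => (∏ i ∈ S, b i) * a k) (Sum.elim γ (fun j => μ j)) (Sum.elim δ (fun j => ν j))
      α β (fun k => mul_ne_zero (prod_ne_zero_iff.2 fun i _ => hb i) (ha k)) hα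
      (by
        rintro (i | j)
        · exact hγ i
        · exact hμ j)
      hh1
      (by
        rintro (i | i) (j | j) hne
        · exact hh2 i j (by simpa using hne)
        · exact hh6 i j
        · exact fun h => hh6 j i h.symm
        · exact hh4 i j (fun h => hne (by rw [Subtype.ext h])))
      (by
        rintro k i (j | j)
        · exact hh3 k i j
        · exact hh5 k i j)
      (fun t => by rw [hS, hS, hS, ← hF]; ring)
    refine ⟨C, hC0, fun X hX => le_trans ?_ (hC X hX)⟩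
    simp only [hS]
    refine sum_le_sum_of_subset_of_nonneg ?_ fun t _ _ => wt_nonneg _ _
    intro t ht
    rw [mem_filter] at ht ⊢
    exact ⟨ht.1, fun k => mul_ne_zero (prod_ne_zero_iff.2 fun i _ => ht.2.2 i) (ht.2.1 k)⟩
  choose C hC0 hC using key
  refine ⟨∑ S, C S, sum_nonneg fun S _ => hC0 S, fun X hX S => (hC S X hX).trans ?_⟩
  refine mul_le_mul_of_nonneg_right ?_ (Nat.cast_nonneg _)
  exact single_le_sum (fun S _ => hC0 S) (mem_univ S)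

/-- the arithmetic-geometric mean inequality -/
theorem amgm {I : Type} [Fintype I] [Nonempty I] (x : I → ℝ) (hx : ∀ i, 0 ≤ x i) (y : ℝ)
    (hy : (2 : ℝ) ^ y ≤ ∏ i, x i) :
    (2 : ℝ) ^ (y / Fintype.card I) ≤ (Fintype.card I : ℝ)⁻¹ * ∑ i, x i := by
  have hc : (0 : ℝ) < Fintype.card I := by exact_mod_cast Fintype.card_pos
  have h1 := Real.geom_mean_le_arith_mean_weighted univ (fun _ : I => (Fintype.card I : ℝ)⁻¹) x
    (fun _ _ => by positivity) (by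
      rw [sum_const, card_univ, nsmul_eq_mul, mul_inv_cancel₀ hc.ne']) (fun i _ => hx i)
  rw [Real.finsetProd_rpow univ x (fun i _ => hx i), ← mul_sum] at h1
  refine le_trans ?_ h1
  rw [div_eq_mul_inv, Real.rpow_mul (by norm_num)]
  exact Real.rpow_le_rpow (by positivity) hy (by positivity)

/-- the number of the elements of order two of a product -/
theorem card_two {I : Type} [Fintype I] (H : I → Type) [∀ i, AddCommGroup (H i)]
    (hf : ∀ i, Finite {h : H i // h + h = 0}) :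
    Finite {h : ∀ i, H i // h + h = 0} ∧
    Nat.card {h : ∀ i, H i // h + h = 0} = ∏ i, Nat.card {h : H i // h + h = 0} := by
  have e : {h : ∀ i, H i // h + h = 0} ≃ ∀ i, {h : H i // h + h = 0} :=
    { toFun := fun h i => ⟨h.1 i, congrFun h.2 i⟩
      invFun := fun h => ⟨fun i => (h i).1, funext fun i => (h i).2⟩
      left_inv := fun _ => rfl
      right_inv := fun _ => rfl }
  refine ⟨Finite.of_equiv _ e.symm, ?_⟩
  rw [Nat.card_congr e, Nat.card_pi]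

open scoped Classical in
/-- finiteness of the 2-torsion of the Tate-Shafarevich group -/
theorem fin_sha (hdesc : DESC5) (h1 : SH1) (h2 : SH2) {A B : ℤ} (hA : A ≠ 0) (hB : B ≠ 0)
    (hAB : A ≠ B) : Finite {c : Sha (E A B) // c + c = 0} := by
  classical
  exact (h2 A B hA hB hAB (h1 A B hA hB hAB (selS_finite hdesc hA hB hAB)).1).1

open scoped Classical in
/-- the pointwise bound over the multiquadratic field -/
theorem ptB (hdesc : DESC5) (h1 : SH1) (h2 : SH2) (hphi : PHI) (hgrp : GRP) (hrk : RKK)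
    {l : ℕ} (D : Fin l → ℤ) {A B : ℤ} (hA : A ≠ 0) (hB : B ≠ 0) (hAB : A ≠ B)
    (hD : ∀ i, D i ≠ 0) (r : ℕ) (j : (Fin r → ZMod (2 ^ (l + 1))) →+ ShaK (E A B) (KD D))
    (hj : Function.Injective j) :
    (2 : ℝ) ^ (((Module.finrank ℤ (Pt (E A B) (KD D)) + r : ℕ) : ℝ) / 2 ^ l) ≤
      (2 ^ l : ℝ)⁻¹ * ∑ S : Finset (Fin l), wt ((∏ i ∈ S, D i) * A) ((∏ i ∈ S, D i) * B) := by
  have hS0 : ∀ S : Finset (Fin l), (∏ i ∈ S, D i) ≠ 0 := fun S =>
    prod_ne_zero_iff.2 fun i _ => hD i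
  obtain ⟨Φ, hΦ⟩ := hphi l D A B hA hB hAB hD
  obtain ⟨hf, hc⟩ := card_two (fun S : Finset (Fin l) =>
    Sha (E ((∏ i ∈ S, D i) * A) ((∏ i ∈ S, D i) * B))) (fun S =>
    fin_sha hdesc h1 h2 (mul_ne_zero (hS0 S) hA) (mul_ne_zero (hS0 S) hB)
      (fun h => hAB (mul_left_cancel₀ (hS0 S) h)))
  have h3 := hgrp l r _ _ Φ hΦ j hj hf
  rw [hc] at h3
  have h4 := hrk l D A B hA hB hAB hD
  have h5 := amgm (fun S : Finset (Fin l) => wt ((∏ i ∈ S, D i) * A) ((∏ i ∈ S, D i) * B))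
    (fun S => wt_nonneg _ _) ((Module.finrank ℤ (Pt (E A B) (KD D)) + r : ℕ) : ℝ) (by
      unfold wt
      rw [Real.rpow_natCast, prod_mul_distrib, prod_pow_eq_pow_sum, pow_add]
      refine mul_le_mul (pow_le_pow_right₀ (by norm_num) h4) ?_ (by positivity) (by positivity)
      exact_mod_cast h3)
  have h6 : (Fintype.card (Finset (Fin l)) : ℝ) = 2 ^ l := by
    rw [Fintype.card_finset, Fintype.card_fin]
    push_cast
    rfl
  rw [h6] at h5
  exact h5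

open scoped Classical in
/-- the averages over the multiquadratic fields -/
theorem famB (hdesc : DESC5) (hloc : LOCL2) (h1 : SH1) (h2 : SH2) (hphi : PHI) (hgrp : GRP)
    (hrk : RKK) {n l : ℕ} {J T : Type}
    [Fintype J] [Fintype T] (a : Fin 3 → ℤ) (γ δ : J → ℤ) (α β : Fin 3 → Fin n → ℤ)
    (b : Fin l → ℤ) (g : T → Fin l) (μ ν : T → ℤ)
    (ha : ∀ k, a k ≠ 0) (hα : ∀ k i, α k i ≠ 0) (hγ : ∀ i, γ i ≠ 0) (hb : ∀ i, b i ≠ 0)
    (hμ : ∀ j, μ j ≠ 0)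
    (hh1 : ∀ k i l j, (k, i) ≠ (l, j) → α k i * β l j ≠ α l j * β k i)
    (hh2 : ∀ i j, i ≠ j → γ i * δ j ≠ γ j * δ i)
    (hh3 : ∀ k i j, α k i * δ j ≠ γ j * β k i)
    (hh4 : ∀ i j, i ≠ j → μ i * ν j ≠ μ j * ν i)
    (hh5 : ∀ k i j, α k i * ν j ≠ μ j * β k i)
    (hh6 : ∀ i j, γ i * ν j ≠ μ j * δ i)
    (hF : ∀ t : ℤ, Fm a γ δ α β 0 t - Fm a γ δ α β 1 t = Fm a γ δ α β 2 t) :
    ∃ C : ℝ, ∀ r : ℤ → ℕ,
      (∀ t, (∀ k, Fm a γ δ α β k t ≠ 0) → (∀ i, Dm b g μ ν i t ≠ 0) →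
        ∃ j : (Fin (r t) → ZMod (2 ^ (l + 1))) →+
          ShaK (E (Fm a γ δ α β 0 t) (Fm a γ δ α β 1 t)) (KD fun i => Dm b g μ ν i t),
        Function.Injective j) →
      ∀ X : ℕ, 1 ≤ X →
      ∑ t ∈ (Icc (-(X : ℤ)) X).filter
        (fun t : ℤ => (∀ k, Fm a γ δ α β k t ≠ 0) ∧ ∀ i, Dm b g μ ν i t ≠ 0),
        (2 : ℝ) ^ (((Module.finrank ℤ (Pt (E (Fm a γ δ α β 0 t) (Fm a γ δ α β 1 t))
          (KD fun i => Dm b g μ ν i t)) + r t : ℕ) : ℝ) / 2 ^ l) ≤ C * X := by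
  obtain ⟨C, hC0, hC⟩ := famS hdesc hloc h1 h2 a γ δ α β b g μ ν ha hα hγ hb hμ hh1 hh2 hh3 hh4
    hh5 hh6 hF
  refine ⟨C, fun r hr X hX => ?_⟩
  calc _ ≤ ∑ t ∈ (Icc (-(X : ℤ)) X).filter
        (fun t : ℤ => (∀ k, Fm a γ δ α β k t ≠ 0) ∧ ∀ i, Dm b g μ ν i t ≠ 0),
        (2 ^ l : ℝ)⁻¹ * ∑ S : Finset (Fin l),
        wt ((∏ i ∈ S, Dm b g μ ν i t) * Fm a γ δ α β 0 t)
          ((∏ i ∈ S, Dm b g μ ν i t) * Fm a γ δ α β 1 t) := by
        refine sum_le_sum fun t ht => ?_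
        have ht2 := (mem_filter.1 ht).2
        obtain ⟨j, hj⟩ := hr t ht2.1 ht2.2
        refine ptB hdesc h1 h2 hphi hgrp hrk _ (ht2.1 0) (ht2.1 1) ?_ ht2.2 (r t) j hj
        intro h3
        apply ht2.1 2
        rw [← hF, h3, sub_self]
    _ ≤ (2 ^ l : ℝ)⁻¹ * ∑ S : Finset (Fin l), C * X := by
        rw [← mul_sum, sum_comm]
        exact mul_le_mul_of_nonneg_left (sum_le_sum fun S _ => hC X hX S) (by positivity)
    _ = C * X := by
        rw [sum_const, card_univ, Fintype.card_finset, Fintype.card_fin, nsmul_eq_mul]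
        push_cast
        rw [← mul_assoc, inv_mul_cancel₀ (by positivity), one_mul]

end Pool.Agent.W262.SH
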