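import Mathlib
import Pool.Agent.W262.SH.StmB

/-!
# Tate-Shafarevich groups of twisted powers of elliptic curves: definitions, statements

Project SHC (helper262), problem MP_a43263_nt: the abelian varieties `A_t` of dimension `g` over
`ℚ` obtained from `E_t ^ g` by twisting with an integral representation of the Galois group of
`ℚ(√D_1(t), ..., √D_n(t))`.
-/

namespace Pool.Agent.W262.SH

open WeierstrassCurve

open scoped Classical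

/-- the signs of `τ` on the square roots of the `D i` -/
noncomputable def chi {n : ℕ} (D : Fin n → ℤ) {L : Type} [Field L] (τ : L → L) (i : Fin n) : ℤˣ :=
  if ∀ r : L, r ^ 2 = (D i : L) → τ r = r then 1 else -1

/-- the action of the automorphism `τ` on the points of the twist `A` of `E ^ g` by `ρ` -/
noncomputable def tact {n g : ℕ} (W : WeierstrassCurve ℚ) (D : Fin n → ℤ)
    (ρ : (Fin n → ℤˣ) →* (Matrix (Fin g) (Fin g) ℤ)ˣ) {L : Type} [Field L] [Algebra ℚ L]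
    (τ : L →ₐ[ℚ] L) (P : Fin g → Pt W L) : Fin g → Pt W L :=
  fun i => ∑ j, ((ρ (chi D τ) : Matrix (Fin g) (Fin g) ℤ) i j) • act W τ (P j)

/-- SC-LIN: `tact` is additive -/
theorem tact_add {n g : ℕ} (W : WeierstrassCurve ℚ) (D : Fin n → ℤ)
    (ρ : (Fin n → ℤˣ) →* (Matrix (Fin g) (Fin g) ℤ)ˣ) {L : Type} [Field L] [Algebra ℚ L]
    (τ : L →ₐ[ℚ] L) (P Q : Fin g → Pt W L) :
    tact W D ρ τ (P + Q) = tact W D ρ τ P + tact W D ρ τ Q := by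
  funext i
  simp only [tact, Pi.add_apply, map_add, smul_add, Finset.sum_add_distrib]

theorem tact_zero {n g : ℕ} (W : WeierstrassCurve ℚ) (D : Fin n → ℤ)
    (ρ : (Fin n → ℤˣ) →* (Matrix (Fin g) (Fin g) ℤ)ˣ) {L : Type} [Field L] [Algebra ℚ L]
    (τ : L →ₐ[ℚ] L) : tact W D ρ τ 0 = 0 := by
  funext i
  simp only [tact, Pi.zero_apply, map_zero, smul_zero, Finset.sum_const_zero]

theorem tact_neg {n g : ℕ} (W : WeierstrassCurve ℚ) (D : Fin n → ℤ)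
    (ρ : (Fin n → ℤˣ) →* (Matrix (Fin g) (Fin g) ℤ)ˣ) {L : Type} [Field L] [Algebra ℚ L]
    (τ : L →ₐ[ℚ] L) (P : Fin g → Pt W L) : tact W D ρ τ (-P) = - tact W D ρ τ P := by
  funext i
  simp only [tact, Pi.neg_apply, map_neg, smul_neg, Finset.sum_neg_distrib]

/-- the rational points of `A` -/
noncomputable def ratA {n g : ℕ} (W : WeierstrassCurve ℚ) (D : Fin n → ℤ)
    (ρ : (Fin n → ℤˣ) →* (Matrix (Fin g) (Fin g) ℤ)ˣ) : AddSubgroup (Fin g → Pt W QB) where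
  carrier := {P | ∀ σ : QB ≃ₐ[ℚ] QB, tact W D ρ σ.toAlgHom P = P}
  zero_mem' := fun σ => tact_zero W D ρ _
  add_mem' := fun {P Q} hP hQ σ =>
    (tact_add W D ρ _ P Q).trans (congrArg₂ (· + ·) (hP σ) (hQ σ))
  neg_mem' := fun {P} hP σ => (tact_neg W D ρ _ P).trans (congrArg Neg.neg (hP σ))

/-- local triviality for `A` -/
def LocTrivA {n g : ℕ} (W : WeierstrassCurve ℚ) (D : Fin n → ℤ)
    (ρ : (Fin n → ℤˣ) →* (Matrix (Fin g) (Fin g) ℤ)ˣ) (K : Type) [Field K] [Algebra ℚ K]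
    (f : (QB ≃ₐ[ℚ] QB) → Fin g → Pt W QB) : Prop :=
  ∀ ι : QB →ₐ[ℚ] AlgebraicClosure K, ∃ P : Fin g → Pt W (AlgebraicClosure K),
    ∀ (τ : AlgebraicClosure K ≃ₐ[K] AlgebraicClosure K) (σ : QB ≃ₐ[ℚ] QB),
      (τ.toAlgHom.restrictScalars ℚ).comp ι = ι.comp σ.toAlgHom →
      (fun i => act W ι (f σ i)) = tact W D ρ (τ.toAlgHom.restrictScalars ℚ) P - P

/-- the locally trivial cocycles with values in `A` -/
def IsShaA {n g : ℕ} (W : WeierstrassCurve ℚ) (D : Fin n → ℤ)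
    (ρ : (Fin n → ℤˣ) →* (Matrix (Fin g) (Fin g) ℤ)ˣ) (f : (QB ≃ₐ[ℚ] QB) → Fin g → Pt W QB) :
    Prop :=
  (IsLocallyConstant f ∧ ∀ σ τ, f (σ * τ) = f σ + tact W D ρ σ.toAlgHom (f τ)) ∧
    (∀ (p : ℕ) [Fact p.Prime], LocTrivA W D ρ ℚ_[p] f) ∧ LocTrivA W D ρ ℝ f

theorem locA_zero {n g : ℕ} (W : WeierstrassCurve ℚ) (D : Fin n → ℤ)
    (ρ : (Fin n → ℤˣ) →* (Matrix (Fin g) (Fin g) ℤ)ˣ) (K : Type) [Field K] [Algebra ℚ K] :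
    LocTrivA W D ρ K 0 := by
  intro ι
  refine ⟨0, fun τ σ _ => ?_⟩
  rw [tact_zero]
  funext i
  simp

theorem locA_add {n g : ℕ} (W : WeierstrassCurve ℚ) (D : Fin n → ℤ)
    (ρ : (Fin n → ℤˣ) →* (Matrix (Fin g) (Fin g) ℤ)ˣ) (K : Type) [Field K] [Algebra ℚ K]
    {f h : (QB ≃ₐ[ℚ] QB) → Fin g → Pt W QB} (hf : LocTrivA W D ρ K f)
    (hh : LocTrivA W D ρ K h) : LocTrivA W D ρ K (f + h) := by
  intro ι
  obtain ⟨P, hP⟩ := hf ι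
  obtain ⟨Q, hQ⟩ := hh ι
  refine ⟨P + Q, fun τ σ h' => ?_⟩
  have e1 := hP τ σ h'
  have e2 := hQ τ σ h'
  rw [tact_add]
  have e3 : (fun i => act W ι ((f + h) σ i)) = (fun i => act W ι (f σ i)) +
      (fun i => act W ι (h σ i)) := by
    funext i
    simp
  rw [e3, e1, e2]
  abel

theorem locA_neg {n g : ℕ} (W : WeierstrassCurve ℚ) (D : Fin n → ℤ)
    (ρ : (Fin n → ℤˣ) →* (Matrix (Fin g) (Fin g) ℤ)ˣ) (K : Type) [Field K] [Algebra ℚ K]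
    {f : (QB ≃ₐ[ℚ] QB) → Fin g → Pt W QB} (hf : LocTrivA W D ρ K f) :
    LocTrivA W D ρ K (-f) := by
  intro ι
  obtain ⟨P, hP⟩ := hf ι
  refine ⟨-P, fun τ σ h' => ?_⟩
  have e1 := hP τ σ h'
  rw [tact_neg]
  have e3 : (fun i => act W ι ((-f) σ i)) = -(fun i => act W ι (f σ i)) := by
    funext i
    simp
  rw [e3, e1]
  abel

theorem shaA_zero {n g : ℕ} (W : WeierstrassCurve ℚ) (D : Fin n → ℤ)
    (ρ : (Fin n → ℤˣ) →* (Matrix (Fin g) (Fin g) ℤ)ˣ) : IsShaA W D ρ 0 := by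
  refine ⟨⟨IsLocallyConstant.const _, fun σ τ => by simp [tact_zero]⟩, ?_, ?_⟩
  · intro p _
    exact locA_zero W D ρ _
  · exact locA_zero W D ρ _

theorem shaA_add {n g : ℕ} (W : WeierstrassCurve ℚ) (D : Fin n → ℤ)
    (ρ : (Fin n → ℤˣ) →* (Matrix (Fin g) (Fin g) ℤ)ˣ)
    {f h : (QB ≃ₐ[ℚ] QB) → Fin g → Pt W QB} (hf : IsShaA W D ρ f) (hh : IsShaA W D ρ h) :
    IsShaA W D ρ (f + h) := by
  obtain ⟨⟨hf1, hf2⟩, hf3, hf4⟩ := hf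
  obtain ⟨⟨hg1, hg2⟩, hg3, hg4⟩ := hh
  refine ⟨⟨hf1.add hg1, fun σ τ => ?_⟩, ?_, locA_add W D ρ _ hf4 hg4⟩
  · simp only [Pi.add_apply, hf2, hg2, tact_add]
    abel
  · intro p _
    exact locA_add W D ρ _ (hf3 p) (hg3 p)

theorem shaA_neg {n g : ℕ} (W : WeierstrassCurve ℚ) (D : Fin n → ℤ)
    (ρ : (Fin n → ℤˣ) →* (Matrix (Fin g) (Fin g) ℤ)ˣ)
    {f : (QB ≃ₐ[ℚ] QB) → Fin g → Pt W QB} (hf : IsShaA W D ρ f) : IsShaA W D ρ (-f) := by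
  obtain ⟨⟨hf1, hf2⟩, hf3, hf4⟩ := hf
  refine ⟨⟨hf1.neg, fun σ τ => ?_⟩, ?_, locA_neg W D ρ _ hf4⟩
  · simp only [Pi.neg_apply, hf2, tact_neg]
    abel
  · intro p _
    exact locA_neg W D ρ _ (hf3 p)

/-- the locally trivial cocycles with values in `A` -/
noncomputable def shaCocA {n g : ℕ} (W : WeierstrassCurve ℚ) (D : Fin n → ℤ)
    (ρ : (Fin n → ℤˣ) →* (Matrix (Fin g) (Fin g) ℤ)ˣ) :
    AddSubgroup ((QB ≃ₐ[ℚ] QB) → Fin g → Pt W QB) where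
  carrier := {f | (IsLocallyConstant f ∧
    ∀ σ τ, f (σ * τ) = f σ + tact W D ρ σ.toAlgHom (f τ)) ∧
    (∀ (p : ℕ) [Fact p.Prime], LocTrivA W D ρ ℚ_[p] f) ∧ LocTrivA W D ρ ℝ f}
  zero_mem' := shaA_zero W D ρ
  add_mem' := shaA_add W D ρ
  neg_mem' := shaA_neg W D ρ

theorem cobA_zero {n g : ℕ} (W : WeierstrassCurve ℚ) (D : Fin n → ℤ)
    (ρ : (Fin n → ℤˣ) →* (Matrix (Fin g) (Fin g) ℤ)ˣ) :
    ∃ P, ∀ σ : QB ≃ₐ[ℚ] QB, (0 : (QB ≃ₐ[ℚ] QB) → Fin g → Pt W QB) σ =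
      tact W D ρ σ.toAlgHom P - P :=
  ⟨0, fun σ => by simp [tact_zero]⟩

theorem cobA_add {n g : ℕ} (W : WeierstrassCurve ℚ) (D : Fin n → ℤ)
    (ρ : (Fin n → ℤˣ) →* (Matrix (Fin g) (Fin g) ℤ)ˣ)
    {f h : (QB ≃ₐ[ℚ] QB) → Fin g → Pt W QB}
    (hf : ∃ P, ∀ σ, f σ = tact W D ρ σ.toAlgHom P - P)
    (hh : ∃ P, ∀ σ, h σ = tact W D ρ σ.toAlgHom P - P) :
    ∃ P, ∀ σ, (f + h) σ = tact W D ρ σ.toAlgHom P - P := by
  obtain ⟨P, hP⟩ := hf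
  obtain ⟨Q, hQ⟩ := hh
  refine ⟨P + Q, fun σ => ?_⟩
  simp only [Pi.add_apply, tact_add, hP, hQ]
  abel

theorem cobA_neg {n g : ℕ} (W : WeierstrassCurve ℚ) (D : Fin n → ℤ)
    (ρ : (Fin n → ℤˣ) →* (Matrix (Fin g) (Fin g) ℤ)ˣ)
    {f : (QB ≃ₐ[ℚ] QB) → Fin g → Pt W QB}
    (hf : ∃ P, ∀ σ, f σ = tact W D ρ σ.toAlgHom P - P) :
    ∃ P, ∀ σ, (-f) σ = tact W D ρ σ.toAlgHom P - P := by
  obtain ⟨P, hP⟩ := hf
  refine ⟨-P, fun σ => ?_⟩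
  simp only [Pi.neg_apply, tact_neg, hP]
  abel

/-- the coboundaries -/
noncomputable def cobA {n g : ℕ} (W : WeierstrassCurve ℚ) (D : Fin n → ℤ)
    (ρ : (Fin n → ℤˣ) →* (Matrix (Fin g) (Fin g) ℤ)ˣ) :
    AddSubgroup ((QB ≃ₐ[ℚ] QB) → Fin g → Pt W QB) where
  carrier := {f | ∃ P, ∀ σ, f σ = tact W D ρ σ.toAlgHom P - P}
  zero_mem' := cobA_zero W D ρ
  add_mem' := cobA_add W D ρ
  neg_mem' := cobA_neg W D ρ

/-- the Tate-Shafarevich group of `A` over `ℚ` -/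
abbrev ShaA {n g : ℕ} (W : WeierstrassCurve ℚ) (D : Fin n → ℤ)
    (ρ : (Fin n → ℤˣ) →* (Matrix (Fin g) (Fin g) ℤ)ˣ) : Type :=
  shaCocA W D ρ ⧸ (cobA W D ρ).addSubgroupOf (shaCocA W D ρ)

/-- SC-PHI: the Tate-Shafarevich group of `A` and the quadratic twists of `E` -/
def PHIA : Prop := ∀ (n g : ℕ) (D : Fin n → ℤ)
  (ρ : (Fin n → ℤˣ) →* (Matrix (Fin g) (Fin g) ℤ)ˣ) (A B : ℤ), A ≠ 0 → B ≠ 0 → A ≠ B →
  (∀ i, D i ≠ 0) →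
  ∃ Φ : ShaA (E A B) D ρ →+
    (∀ i : Finset (Fin n) × Fin g, Sha (E ((∏ j ∈ i.1, D j) * A) ((∏ j ∈ i.1, D j) * B))),
  ∀ c, Φ c = 0 → (2 ^ (2 * n)) • c = 0

/-- SC-RK: the rank of `A` and the ranks of the quadratic twists of `E` -/
def RKA : Prop := ∀ (n g : ℕ) (D : Fin n → ℤ)
  (ρ : (Fin n → ℤˣ) →* (Matrix (Fin g) (Fin g) ℤ)ˣ) (A B : ℤ), A ≠ 0 → B ≠ 0 → A ≠ B →
  (∀ i, D i ≠ 0) →
  Module.finrank ℤ (ratA (E A B) D ρ) ≤ ∑ i : Finset (Fin n) × Fin g,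
    Module.finrank ℤ (E ((∏ j ∈ i.1, D j) * A) ((∏ j ∈ i.1, D j) * B)).toAffine.Point

end Pool.Agent.W262.SH
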