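import Mathlib
import Pool.Agent.W262.SH.StmC

/-!
# Twisted powers of elliptic curves: the sharp decomposition

Project SHC (helper262), problem MP_a43263_nt: `A_t` is isogenous to a product of `g` quadratic
twists of `E_t`.
-/

namespace Pool.Agent.W262.SH

open WeierstrassCurve

open scoped Classical

/-- the decomposition of the integral representation `ρ` of `{±1}^n` up to index a power of 2:
`B S * C S` is the projector `∑ ε, (∏ i ∈ S, ε i) * ρ ε` -/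
def LatD {n g : ℕ} (ρ : (Fin n → ℤˣ) →* (Matrix (Fin g) (Fin g) ℤ)ˣ) (m : Finset (Fin n) → ℕ)
    (B : ∀ S, Matrix (Fin g) (Fin (m S)) ℤ) (C : ∀ S, Matrix (Fin (m S)) (Fin g) ℤ) : Prop :=
  ∑ S, m S = g ∧
  (∀ S ε, (ρ ε : Matrix (Fin g) (Fin g) ℤ) * B S = (∏ i ∈ S, ((ε i : ℤˣ) : ℤ)) • B S) ∧
  (∀ S ε, C S * (ρ ε : Matrix (Fin g) (Fin g) ℤ) = (∏ i ∈ S, ((ε i : ℤˣ) : ℤ)) • C S) ∧
  ∑ S, B S * C S = (2 ^ n : ℤ) • (1 : Matrix (Fin g) (Fin g) ℤ)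

/-- SD-LAT -/
def LAT : Prop := ∀ (n g : ℕ) (ρ : (Fin n → ℤˣ) →* (Matrix (Fin g) (Fin g) ℤ)ˣ),
  ∃ (m : Finset (Fin n) → ℕ) (B : ∀ S, Matrix (Fin g) (Fin (m S)) ℤ)
    (C : ∀ S, Matrix (Fin (m S)) (Fin g) ℤ), LatD ρ m B C

/-- SD-PHI: the Tate-Shafarevich group of `A` and the quadratic twists of `E`, sharp form -/
def PHIA2 : Prop := ∀ (n g : ℕ) (D : Fin n → ℤ)
  (ρ : (Fin n → ℤˣ) →* (Matrix (Fin g) (Fin g) ℤ)ˣ) (m : Finset (Fin n) → ℕ)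
  (B : ∀ S, Matrix (Fin g) (Fin (m S)) ℤ) (C : ∀ S, Matrix (Fin (m S)) (Fin g) ℤ),
  LatD ρ m B C → ∀ (A₀ B₀ : ℤ), A₀ ≠ 0 → B₀ ≠ 0 → A₀ ≠ B₀ → (∀ i, D i ≠ 0) →
  ∃ Φ : ShaA (E A₀ B₀) D ρ →+
    (∀ i : (S : Finset (Fin n)) × Fin (m S),
      Sha (E ((∏ j ∈ i.1, D j) * A₀) ((∏ j ∈ i.1, D j) * B₀))),
  ∀ c, Φ c = 0 → (2 ^ n) • c = 0

/-- SD-RK: the rank of `A` and the ranks of the quadratic twists of `E`, sharp form -/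
def RKA2 : Prop := ∀ (n g : ℕ) (D : Fin n → ℤ)
  (ρ : (Fin n → ℤˣ) →* (Matrix (Fin g) (Fin g) ℤ)ˣ) (m : Finset (Fin n) → ℕ)
  (B : ∀ S, Matrix (Fin g) (Fin (m S)) ℤ) (C : ∀ S, Matrix (Fin (m S)) (Fin g) ℤ),
  LatD ρ m B C → ∀ (A₀ B₀ : ℤ), A₀ ≠ 0 → B₀ ≠ 0 → A₀ ≠ B₀ → (∀ i, D i ≠ 0) →
  Module.finrank ℤ (ratA (E A₀ B₀) D ρ) ≤ ∑ i : (S : Finset (Fin n)) × Fin (m S),
    Module.finrank ℤ (E ((∏ j ∈ i.1, D j) * A₀) ((∏ j ∈ i.1, D j) * B₀)).toAffine.Point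

end Pool.Agent.W262.SH
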