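import Mathlib
import Pool.Agent.W262.SH.AvgK
import Pool.Agent.W262.SH.FamB
import Pool.Agent.W262.SH.StmD

/-!
# All moments for quadratic twists

Project SM (helper262): the moments of `2 ^ rank * #Ш[2]` for the twists by `D(t)`, a product of
linear forms.
-/

namespace Pool.Agent.W262.SH

open Finset Pool.Agent.W262.RK

/-- the parts that are used -/
structure Parts : Prop where
  desc : DESC5
  loc : LOCL2
  sh1 : SH1
  sh2 : SH2
  exp : EXPK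
  comb : COMBK
  sub : SUBBK
  rs : RSB
  rv : RVB

theorem half_k (hp : Parts) (e : ℕ) (he : 1 ≤ e) {J : Type} [Fintype J] (A B b : ℤ) (μ ν : J → ℤ)
    (hA : A ≠ 0) (hB : B ≠ 0) (hAB : A ≠ B) (hb : b ≠ 0) (hμ : ∀ j, μ j ≠ 0)
    (h1 : ∀ i j, i ≠ j → μ i * ν j ≠ μ j * ν i) :
    ∃ C : ℝ, 0 ≤ C ∧ ∀ X : ℕ,
      ∑ t ∈ (Icc 1 X).filter (fun t : ℕ => b * ∏ j, (μ j * (t : ℤ) + ν j) ≠ 0),
        wt ((b * ∏ j, (μ j * (t : ℤ) + ν j)) * A) ((b * ∏ j, (μ j * (t : ℤ) + ν j)) * B) ^ e ≤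
        C * X := by
  classical
  set a : Fin 3 → ℤ := ![b * A, b * B, b * (A - B)] with ha
  have hfs : ∀ k : Fin 3, fs (fun _ : J => (3 : Fin 4)) k = univ := by
    intro k
    unfold fs
    rw [filter_true_of_mem]
    intro j _
    right
    rfl
  have hF4 : ∀ (t : ℤ) (k : Fin 3), F4 (fun _ : J => (3 : Fin 4)) a μ ν t k =
      a k * ∏ j, (μ j * t + ν j) := by
    intro t k
    unfold F4
    rw [hfs]
    rfl
  obtain ⟨C, hC⟩ := avgk_all hp.desc hp.loc hp.exp hp.comb hp.sub hp.rs hp.rv e he a μ ν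
    (by
      intro k
      fin_cases k
      · exact mul_ne_zero hb hA
      · exact mul_ne_zero hb hB
      · exact mul_ne_zero hb (sub_ne_zero.2 hAB))
    hμ
    (fun j l hjl => sub_ne_zero.2 (h1 j l hjl))
    (fun t => by
      rw [hF4, hF4, hF4]
      simp only [ha, Matrix.cons_val_zero, Matrix.cons_val_one, Matrix.cons_val]
      ring)
  refine ⟨max C 0, le_max_right _ _, fun X => ?_⟩
  have h := hC X
  have hset : (Icc 1 X).filter (fun t : ℕ => b * ∏ j, (μ j * (t : ℤ) + ν j) ≠ 0) =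
      (Icc 1 X).filter (fun t : ℕ => ∀ j, ff μ ν t j ≠ 0) := by
    ext t
    rw [mem_filter, mem_filter]
    refine and_congr_right fun _ => ⟨fun h j h0 => ?_, fun h => ?_⟩
    · exact h (by rw [prod_eq_zero (mem_univ j) (show μ j * (t : ℤ) + ν j = 0 from h0), mul_zero])
    · exact mul_ne_zero hb (prod_ne_zero_iff.2 fun j _ => h j)
  calc _ ≤ ∑ t ∈ (Icc 1 X).filter (fun t : ℕ => ∀ j, ff μ ν t j ≠ 0),
        ((SelS (F4 (fun _ : J => (3 : Fin 4)) a μ ν t 0)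
          (F4 (fun _ : J => (3 : Fin 4)) a μ ν t 1)).ncard : ℝ) ^ e := by
        rw [← hset]
        refine sum_le_sum fun t ht => ?_
        have ht' := (mem_filter.1 ht).2
        rw [hF4, hF4]
        have e0 : a 0 * ∏ j, (μ j * (t : ℤ) + ν j) = (b * ∏ j, (μ j * (t : ℤ) + ν j)) * A := by
          simp only [ha, Matrix.cons_val_zero]
          ring
        have e1 : a 1 * ∏ j, (μ j * (t : ℤ) + ν j) = (b * ∏ j, (μ j * (t : ℤ) + ν j)) * B := by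
          simp only [ha, Matrix.cons_val_one, Matrix.cons_val]
          ring
        rw [e0, e1]
        exact pow_le_pow_left₀ (wt_nonneg _ _) (wt_le hp.desc hp.sh1 hp.sh2
          (mul_ne_zero ht' hA) (mul_ne_zero ht' hB) (fun h => hAB (mul_left_cancel₀ ht' h))) e
    _ ≤ C * X := h
    _ ≤ max C 0 * X := mul_le_mul_of_nonneg_right (le_max_left _ _) (Nat.cast_nonneg _)

/-- all moments of `2 ^ rank * #Ш[2]` are bounded -/
theorem fam_k (hp : Parts) (e : ℕ) (he : 1 ≤ e) {J : Type} [Fintype J] (A B b : ℤ) (μ ν : J → ℤ)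
    (hA : A ≠ 0) (hB : B ≠ 0) (hAB : A ≠ B) (hb : b ≠ 0) (hμ : ∀ j, μ j ≠ 0)
    (h1 : ∀ i j, i ≠ j → μ i * ν j ≠ μ j * ν i) :
    ∃ C : ℝ, 0 ≤ C ∧ ∀ X : ℕ, 1 ≤ X →
      ∑ t ∈ (Icc (-(X : ℤ)) X).filter (fun t : ℤ => b * ∏ j, (μ j * t + ν j) ≠ 0),
        wt ((b * ∏ j, (μ j * t + ν j)) * A) ((b * ∏ j, (μ j * t + ν j)) * B) ^ e ≤ C * X := by
  classical
  obtain ⟨C1, hC10, hC1⟩ := half_k hp e he A B b μ ν hA hB hAB hb hμ h1
  obtain ⟨C2, hC20, hC2⟩ := half_k hp e he A B b (fun j => -μ j) ν hA hB hAB hb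
    (fun j => neg_ne_zero.2 (hμ j)) (fun i j hij h => by
      apply h1 i j hij
      linarith)
  have hneg : ∀ t : ℕ, b * ∏ j, (-μ j * (t : ℤ) + ν j) = b * ∏ j, (μ j * (-(t : ℤ)) + ν j) := by
    intro t
    congr 1
    refine prod_congr rfl fun j _ => ?_
    ring
  set P : ℤ → ℝ := fun t => wt ((b * ∏ j, (μ j * t + ν j)) * A)
    ((b * ∏ j, (μ j * t + ν j)) * B) ^ e with hP
  have hP0 : ∀ t, 0 ≤ P t := fun t => pow_nonneg (wt_nonneg _ _) e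
  refine ⟨C1 + C2 + P 0, by linarith [hP0 0], fun X hX => ?_⟩
  have hXr : (1 : ℝ) ≤ X := by exact_mod_cast hX
  have e1 : ∑ t ∈ (Icc 1 X).filter (fun t : ℕ => b * ∏ j, (μ j * (t : ℤ) + ν j) ≠ 0),
      P (t : ℤ) ≤ C1 * X := hC1 X
  have e2 : ∑ t ∈ (Icc 1 X).filter (fun t : ℕ => b * ∏ j, (μ j * (-(t : ℤ)) + ν j) ≠ 0),
      P (-(t : ℤ)) ≤ C2 * X := by
    have h := hC2 X
    simp only [hneg] at h
    exact h
  have hsub : (Icc (-(X : ℤ)) X).filter (fun t : ℤ => b * ∏ j, (μ j * t + ν j) ≠ 0) ⊆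
      (((Icc 1 X).filter (fun t : ℕ => b * ∏ j, (μ j * (t : ℤ) + ν j) ≠ 0)).image
        (fun t : ℕ => (t : ℤ)) ∪
      ((Icc 1 X).filter (fun t : ℕ => b * ∏ j, (μ j * (-(t : ℤ)) + ν j) ≠ 0)).image
        (fun t : ℕ => -(t : ℤ))) ∪ {0} := by
    intro t ht
    rw [mem_filter, mem_Icc] at ht
    obtain ⟨ht, ht2⟩ := ht
    rw [mem_union, mem_union, mem_image, mem_image, mem_singleton]
    rcases lt_trichotomy t 0 with h | h | h
    · left; right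
      have e : -((t.natAbs : ℕ) : ℤ) = t := by omega
      refine ⟨t.natAbs, mem_filter.2 ⟨mem_Icc.2 (by omega), ?_⟩, e⟩
      rw [e]
      exact ht2
    · right; exact h
    · left; left
      have e : ((t.natAbs : ℕ) : ℤ) = t := by omega
      refine ⟨t.natAbs, mem_filter.2 ⟨mem_Icc.2 (by omega), ?_⟩, e⟩
      rw [e]
      exact ht2
  have hun : ∀ S T : Finset ℤ, ∑ t ∈ S ∪ T, P t ≤ ∑ t ∈ S, P t + ∑ t ∈ T, P t := by
    intro S T
    rw [← sum_union_inter]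
    exact le_add_of_nonneg_right (sum_nonneg fun t _ => hP0 t)
  have e3 : ∑ t ∈ ((Icc 1 X).filter (fun t : ℕ => b * ∏ j, (μ j * (t : ℤ) + ν j) ≠ 0)).image
      (fun t : ℕ => (t : ℤ)), P t =
      ∑ t ∈ (Icc 1 X).filter (fun t : ℕ => b * ∏ j, (μ j * (t : ℤ) + ν j) ≠ 0), P (t : ℤ) :=
    sum_image (fun i _ j _ hij => by exact_mod_cast hij)
  have e4 : ∑ t ∈ ((Icc 1 X).filter (fun t : ℕ => b * ∏ j, (μ j * (-(t : ℤ)) + ν j) ≠ 0)).image
      (fun t : ℕ => -(t : ℤ)), P t =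
      ∑ t ∈ (Icc 1 X).filter (fun t : ℕ => b * ∏ j, (μ j * (-(t : ℤ)) + ν j) ≠ 0), P (-(t : ℤ)) :=
    sum_image (fun i _ j _ hij => by simpa using hij)
  show ∑ t ∈ (Icc (-(X : ℤ)) X).filter (fun t : ℤ => b * ∏ j, (μ j * t + ν j) ≠ 0), P t ≤
    (C1 + C2 + P 0) * X
  have h5 := (sum_le_sum_of_subset_of_nonneg hsub (fun t _ _ => hP0 t)).trans
    ((hun _ _).trans (add_le_add (hun _ _) le_rfl))
  rw [e3, e4, sum_singleton] at h5
  have h6 : P 0 ≤ P 0 * X := le_mul_of_one_le_right (hP0 0) hXr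
  linarith

/-- the same for all the products of the `D_i(t)` -/
theorem famS_k (hp : Parts) (e : ℕ) (he : 1 ≤ e) {l : ℕ} {T : Type} [Fintype T] (A B : ℤ)
    (b : Fin l → ℤ) (g : T → Fin l) (μ ν : T → ℤ)
    (hA : A ≠ 0) (hB : B ≠ 0) (hAB : A ≠ B) (hb : ∀ i, b i ≠ 0) (hμ : ∀ j, μ j ≠ 0)
    (h1 : ∀ i j, i ≠ j → μ i * ν j ≠ μ j * ν i) :
    ∃ C : ℝ, 0 ≤ C ∧ ∀ X : ℕ, 1 ≤ X → ∀ S : Finset (Fin l),
      ∑ t ∈ (Icc (-(X : ℤ)) X).filter (fun t : ℤ => ∀ i, Dm b g μ ν i t ≠ 0),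
        wt ((∏ i ∈ S, Dm b g μ ν i t) * A) ((∏ i ∈ S, Dm b g μ ν i t) * B) ^ e ≤ C * X := by
  classical
  have key : ∀ S : Finset (Fin l), ∃ C : ℝ, 0 ≤ C ∧ ∀ X : ℕ, 1 ≤ X →
      ∑ t ∈ (Icc (-(X : ℤ)) X).filter (fun t : ℤ => ∀ i, Dm b g μ ν i t ≠ 0),
        wt ((∏ i ∈ S, Dm b g μ ν i t) * A) ((∏ i ∈ S, Dm b g μ ν i t) * B) ^ e ≤ C * X := by
    intro S
    obtain ⟨C, hC0, hC⟩ := fam_k hp e he (J := {j : T // g j ∈ S}) A B (∏ i ∈ S, b i)
      (fun j => μ j) (fun j => ν j) hA hB hAB (prod_ne_zero_iff.2 fun i _ => hb i)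
      (fun j => hμ j) (fun i j hij => h1 i j (fun h => hij (Subtype.ext h)))
    refine ⟨C, hC0, fun X hX => le_trans ?_ (hC X hX)⟩
    simp only [prod_Dm]
    refine sum_le_sum_of_subset_of_nonneg ?_ fun t _ _ => pow_nonneg (wt_nonneg _ _) e
    intro t ht
    rw [mem_filter] at ht ⊢
    refine ⟨ht.1, ?_⟩
    rw [← prod_Dm]
    exact prod_ne_zero_iff.2 fun i _ => ht.2 i
  choose C hC0 hC using key
  refine ⟨∑ S, C S, sum_nonneg fun S _ => hC0 S, fun X hX S => (hC S X hX).trans ?_⟩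
  refine mul_le_mul_of_nonneg_right ?_ (Nat.cast_nonneg _)
  exact single_le_sum (fun S _ => hC0 S) (mem_univ S)

end Pool.Agent.W262.SH
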