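import Mathlib
import Pool.Agent.W262.SH.FamK

/-!
# All moments over multiquadratic fields and for abelian varieties

Project SM (helper262).
-/

namespace Pool.Agent.W262.SH

open Finset Pool.Agent.W262.RK

/-- a product is at most the mean of the powers -/
theorem prod_le_mean {I : Type} [Fintype I] [Nonempty I] (x : I → ℝ) (hx : ∀ i, 0 ≤ x i) :
    ∏ i, x i ≤ (Fintype.card I : ℝ)⁻¹ * ∑ i, x i ^ (Fintype.card I) := by
  have hc : (0 : ℝ) < Fintype.card I := by exact_mod_cast Fintype.card_pos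
  have h1 := Real.geom_mean_le_arith_mean_weighted univ (fun _ : I => (Fintype.card I : ℝ)⁻¹)
    (fun i => x i ^ (Fintype.card I))
    (fun _ _ => by positivity) (by
      rw [sum_const, card_univ, nsmul_eq_mul, mul_inv_cancel₀ hc.ne'])
    (fun i _ => pow_nonneg (hx i) _)
  rw [← mul_sum] at h1
  refine le_trans (le_of_eq (prod_congr rfl fun i _ => ?_)) h1
  rw [← Real.rpow_natCast (x i), ← Real.rpow_mul (hx i), mul_inv_cancel₀ hc.ne', Real.rpow_one]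

open scoped Classical in
/-- the pointwise bound over the multiquadratic field -/
theorem ptBk (hdesc : DESC5) (h1 : SH1) (h2 : SH2) (hphi : PHI) (hgrp : GRP) (hrk : RKK)
    {l : ℕ} (D : Fin l → ℤ) {A B : ℤ} (hA : A ≠ 0) (hB : B ≠ 0) (hAB : A ≠ B)
    (hD : ∀ i, D i ≠ 0) (e r : ℕ) (j : (Fin r → ZMod (2 ^ (l + 1))) →+ ShaK (E A B) (KD D))
    (hj : Function.Injective j) :
    (2 : ℝ) ^ (e * (Module.finrank ℤ (Pt (E A B) (KD D)) + r)) ≤
      ∑ S : Finset (Fin l), wt ((∏ i ∈ S, D i) * A) ((∏ i ∈ S, D i) * B) ^ (e * 2 ^ l) := by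
  have hS0 : ∀ S : Finset (Fin l), (∏ i ∈ S, D i) ≠ 0 := fun S =>
    prod_ne_zero_iff.2 fun i _ => hD i
  obtain ⟨Φ, hΦ⟩ := hphi l D A B hA hB hAB hD
  obtain ⟨hf, hc⟩ := card_two (fun S : Finset (Fin l) =>
    Sha (E ((∏ i ∈ S, D i) * A) ((∏ i ∈ S, D i) * B))) (fun S =>
    fin_sha hdesc h1 h2 (mul_ne_zero (hS0 S) hA) (mul_ne_zero (hS0 S) hB)
      (fun h => hAB (mul_left_cancel₀ (hS0 S) h)))
  have h3 := hgrp l r _ _ Φ hΦ j hj hf
  rw [hc] at h3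
  have h4 := hrk l D A B hA hB hAB hD
  have h5 : (2 : ℝ) ^ (Module.finrank ℤ (Pt (E A B) (KD D)) + r) ≤
      ∏ S : Finset (Fin l), wt ((∏ i ∈ S, D i) * A) ((∏ i ∈ S, D i) * B) := by
    unfold wt
    rw [prod_mul_distrib, prod_pow_eq_pow_sum, pow_add]
    refine mul_le_mul (pow_le_pow_right₀ (by norm_num) h4) ?_ (by positivity) (by positivity)
    exact_mod_cast h3
  have h6 : Fintype.card (Finset (Fin l)) = 2 ^ l := by
    rw [Fintype.card_finset, Fintype.card_fin]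
  calc (2 : ℝ) ^ (e * (Module.finrank ℤ (Pt (E A B) (KD D)) + r))
      = ((2 : ℝ) ^ (Module.finrank ℤ (Pt (E A B) (KD D)) + r)) ^ e := by
        rw [← pow_mul, mul_comm]
    _ ≤ (∏ S : Finset (Fin l), wt ((∏ i ∈ S, D i) * A) ((∏ i ∈ S, D i) * B)) ^ e :=
        pow_le_pow_left₀ (by positivity) h5 e
    _ = ∏ S : Finset (Fin l), wt ((∏ i ∈ S, D i) * A) ((∏ i ∈ S, D i) * B) ^ e := by
        rw [prod_pow]
    _ ≤ (Fintype.card (Finset (Fin l)) : ℝ)⁻¹ * ∑ S : Finset (Fin l),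
        (wt ((∏ i ∈ S, D i) * A) ((∏ i ∈ S, D i) * B) ^ e) ^ Fintype.card (Finset (Fin l)) :=
        prod_le_mean _ fun S => pow_nonneg (wt_nonneg _ _) e
    _ ≤ 1 * ∑ S : Finset (Fin l),
        (wt ((∏ i ∈ S, D i) * A) ((∏ i ∈ S, D i) * B) ^ e) ^ Fintype.card (Finset (Fin l)) := by
        refine mul_le_mul_of_nonneg_right ?_ (sum_nonneg fun S _ =>
          pow_nonneg (pow_nonneg (wt_nonneg _ _) e) _)
        refine inv_le_one_of_one_le₀ ?_
        exact_mod_cast Fintype.card_pos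
    _ = _ := by
        rw [one_mul, h6]
        refine sum_congr rfl fun S _ => ?_
        rw [← pow_mul]

open scoped Classical in
/-- the pointwise bound for the twist of `E ^ g` -/
theorem ptDk (hdesc : DESC5) (h1 : SH1) (h2 : SH2) (hlat : LAT) (hphi : PHIA2) (hgrp : GRP)
    (hrk : RKA2) {l g : ℕ} (hg : 0 < g) (D : Fin l → ℤ)
    (ρ : (Fin l → ℤˣ) →* (Matrix (Fin g) (Fin g) ℤ)ˣ)
    {A B : ℤ} (hA : A ≠ 0) (hB : B ≠ 0) (hAB : A ≠ B)
    (hD : ∀ i, D i ≠ 0) (e r : ℕ)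
    (j : (Fin r → ZMod (2 ^ (l + 1))) →+ ShaA (E A B) D ρ) (hj : Function.Injective j) :
    (2 : ℝ) ^ (e * (Module.finrank ℤ (ratA (E A B) D ρ) + r)) ≤
      g * ∑ S : Finset (Fin l), wt ((∏ i ∈ S, D i) * A) ((∏ i ∈ S, D i) * B) ^ (e * g) := by
  obtain ⟨m, M, N, hd⟩ := hlat l g ρ
  have hsum := hd.1
  have hS0 : ∀ S : Finset (Fin l), (∏ i ∈ S, D i) ≠ 0 := fun S =>
    prod_ne_zero_iff.2 fun i _ => hD i
  obtain ⟨Φ, hΦ⟩ := hphi l g D ρ m M N hd A B hA hB hAB hD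
  obtain ⟨hf, hc⟩ := card_two (fun S : (S : Finset (Fin l)) × Fin (m S) =>
    Sha (E ((∏ i ∈ S.1, D i) * A) ((∏ i ∈ S.1, D i) * B))) (fun S =>
    fin_sha hdesc h1 h2 (mul_ne_zero (hS0 S.1) hA) (mul_ne_zero (hS0 S.1) hB)
      (fun h => hAB (mul_left_cancel₀ (hS0 S.1) h)))
  have h3 := hgrp l r _ _ Φ hΦ j hj hf
  rw [hc] at h3
  have h4 := hrk l g D ρ m M N hd A B hA hB hAB hD
  have hcard : Fintype.card ((S : Finset (Fin l)) × Fin (m S)) = g := by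
    rw [Fintype.card_sigma]
    simpa using hsum
  have hne : Nonempty ((S : Finset (Fin l)) × Fin (m S)) := by
    rw [← Fintype.card_pos_iff, hcard]
    exact hg
  have h5 : (2 : ℝ) ^ (Module.finrank ℤ (ratA (E A B) D ρ) + r) ≤
      ∏ S : (S : Finset (Fin l)) × Fin (m S),
        wt ((∏ i ∈ S.1, D i) * A) ((∏ i ∈ S.1, D i) * B) := by
    unfold wt
    rw [prod_mul_distrib, prod_pow_eq_pow_sum, pow_add]
    refine mul_le_mul (pow_le_pow_right₀ (by norm_num) h4) ?_ (by positivity) (by positivity)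
    exact_mod_cast h3
  calc (2 : ℝ) ^ (e * (Module.finrank ℤ (ratA (E A B) D ρ) + r))
      = ((2 : ℝ) ^ (Module.finrank ℤ (ratA (E A B) D ρ) + r)) ^ e := by
        rw [← pow_mul, mul_comm]
    _ ≤ (∏ S : (S : Finset (Fin l)) × Fin (m S),
        wt ((∏ i ∈ S.1, D i) * A) ((∏ i ∈ S.1, D i) * B)) ^ e :=
        pow_le_pow_left₀ (by positivity) h5 e
    _ = ∏ S : (S : Finset (Fin l)) × Fin (m S),
        wt ((∏ i ∈ S.1, D i) * A) ((∏ i ∈ S.1, D i) * B) ^ e := by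
        rw [prod_pow]
    _ ≤ (Fintype.card ((S : Finset (Fin l)) × Fin (m S)) : ℝ)⁻¹ *
        ∑ S : (S : Finset (Fin l)) × Fin (m S),
        (wt ((∏ i ∈ S.1, D i) * A) ((∏ i ∈ S.1, D i) * B) ^ e) ^
          Fintype.card ((S : Finset (Fin l)) × Fin (m S)) :=
        prod_le_mean _ fun S => pow_nonneg (wt_nonneg _ _) e
    _ ≤ 1 * ∑ S : (S : Finset (Fin l)) × Fin (m S),
        (wt ((∏ i ∈ S.1, D i) * A) ((∏ i ∈ S.1, D i) * B) ^ e) ^
          Fintype.card ((S : Finset (Fin l)) × Fin (m S)) := by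
        refine mul_le_mul_of_nonneg_right ?_ (sum_nonneg fun S _ =>
          pow_nonneg (pow_nonneg (wt_nonneg _ _) e) _)
        refine inv_le_one_of_one_le₀ ?_
        exact_mod_cast Fintype.card_pos
    _ ≤ _ := by
        rw [one_mul, hcard, Fintype.sum_sigma, mul_sum]
        refine sum_le_sum fun S _ => ?_
        simp only [sum_const, card_univ, Fintype.card_fin, nsmul_eq_mul]
        rw [← pow_mul]
        have hm : (m S : ℝ) ≤ g := by
          have : m S ≤ ∑ S, m S := single_le_sum (fun _ _ => Nat.zero_le _) (mem_univ S)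
          rw [hsum] at this
          exact_mod_cast this
        exact mul_le_mul_of_nonneg_right hm (pow_nonneg (wt_nonneg _ _) _)

open scoped Classical in
/-- all moments over the multiquadratic fields -/
theorem famB_k (hp : Parts) (hphi : PHI) (hgrp : GRP) (hrk : RKK) (e : ℕ) (he : 1 ≤ e)
    {l : ℕ} {T : Type} [Fintype T] (A B : ℤ)
    (b : Fin l → ℤ) (g : T → Fin l) (μ ν : T → ℤ)
    (hA : A ≠ 0) (hB : B ≠ 0) (hAB : A ≠ B) (hb : ∀ i, b i ≠ 0) (hμ : ∀ j, μ j ≠ 0)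
    (h1 : ∀ i j, i ≠ j → μ i * ν j ≠ μ j * ν i) :
    ∃ C : ℝ, ∀ r : ℤ → ℕ,
      (∀ t, (∀ i, Dm b g μ ν i t ≠ 0) →
        ∃ j : (Fin (r t) → ZMod (2 ^ (l + 1))) →+
          ShaK (E A B) (KD fun i => Dm b g μ ν i t), Function.Injective j) →
      ∀ X : ℕ, 1 ≤ X →
      ∑ t ∈ (Icc (-(X : ℤ)) X).filter (fun t : ℤ => ∀ i, Dm b g μ ν i t ≠ 0),
        (2 : ℝ) ^ (e * (Module.finrank ℤ (Pt (E A B) (KD fun i => Dm b g μ ν i t)) + r t)) ≤
          C * X := by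
  obtain ⟨C, hC0, hC⟩ := famS_k hp (e * 2 ^ l) (Nat.one_le_iff_ne_zero.2 (by positivity))
    A B b g μ ν hA hB hAB hb hμ h1
  refine ⟨2 ^ l * C, fun r hr X hX => ?_⟩
  calc _ ≤ ∑ t ∈ (Icc (-(X : ℤ)) X).filter (fun t : ℤ => ∀ i, Dm b g μ ν i t ≠ 0),
        ∑ S : Finset (Fin l), wt ((∏ i ∈ S, Dm b g μ ν i t) * A)
          ((∏ i ∈ S, Dm b g μ ν i t) * B) ^ (e * 2 ^ l) := by
        refine sum_le_sum fun t ht => ?_
        have ht2 := (mem_filter.1 ht).2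
        obtain ⟨j, hj⟩ := hr t ht2
        exact ptBk hp.desc hp.sh1 hp.sh2 hphi hgrp hrk _ hA hB hAB ht2 e (r t) j hj
    _ ≤ ∑ S : Finset (Fin l), C * X := by
        rw [sum_comm]
        exact sum_le_sum fun S _ => hC X hX S
    _ = 2 ^ l * C * X := by
        rw [sum_const, card_univ, Fintype.card_finset, Fintype.card_fin, nsmul_eq_mul]
        push_cast
        ring

open scoped Classical in
/-- all moments for the twists of the powers -/
theorem famD_k (hp : Parts) (hlat : LAT) (hphi : PHIA2) (hgrp : GRP) (hrk : RKA2)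
    (e : ℕ) (he : 1 ≤ e) {l d : ℕ} (hd : 0 < d) {T : Type} [Fintype T] (A B : ℤ)
    (b : Fin l → ℤ) (g : T → Fin l) (μ ν : T → ℤ)
    (ρ : (Fin l → ℤˣ) →* (Matrix (Fin d) (Fin d) ℤ)ˣ)
    (hA : A ≠ 0) (hB : B ≠ 0) (hAB : A ≠ B) (hb : ∀ i, b i ≠ 0) (hμ : ∀ j, μ j ≠ 0)
    (h1 : ∀ i j, i ≠ j → μ i * ν j ≠ μ j * ν i) :
    ∃ C : ℝ, ∀ r : ℤ → ℕ,
      (∀ t, (∀ i, Dm b g μ ν i t ≠ 0) →
        ∃ j : (Fin (r t) → ZMod (2 ^ (l + 1))) →+
          ShaA (E A B) (fun i => Dm b g μ ν i t) ρ, Function.Injective j) →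
      ∀ X : ℕ, 1 ≤ X →
      ∑ t ∈ (Icc (-(X : ℤ)) X).filter (fun t : ℤ => ∀ i, Dm b g μ ν i t ≠ 0),
        (2 : ℝ) ^ (e * (Module.finrank ℤ (ratA (E A B) (fun i => Dm b g μ ν i t) ρ) + r t)) ≤
          C * X := by
  obtain ⟨C, hC0, hC⟩ := famS_k hp (e * d) (Nat.one_le_iff_ne_zero.2 (by positivity))
    A B b g μ ν hA hB hAB hb hμ h1
  refine ⟨d * (2 ^ l * C), fun r hr X hX => ?_⟩
  calc _ ≤ ∑ t ∈ (Icc (-(X : ℤ)) X).filter (fun t : ℤ => ∀ i, Dm b g μ ν i t ≠ 0),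
        (d : ℝ) * ∑ S : Finset (Fin l), wt ((∏ i ∈ S, Dm b g μ ν i t) * A)
          ((∏ i ∈ S, Dm b g μ ν i t) * B) ^ (e * d) := by
        refine sum_le_sum fun t ht => ?_
        have ht2 := (mem_filter.1 ht).2
        obtain ⟨j, hj⟩ := hr t ht2
        exact ptDk hp.desc hp.sh1 hp.sh2 hlat hphi hgrp hrk hd _ ρ hA hB hAB ht2 e (r t) j hj
    _ ≤ (d : ℝ) * ∑ S : Finset (Fin l), C * X := by
        rw [← mul_sum, sum_comm]
        exact mul_le_mul_of_nonneg_left (sum_le_sum fun S _ => hC X hX S) (Nat.cast_nonneg _)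
    _ = d * (2 ^ l * C) * X := by
        rw [sum_const, card_univ, Fintype.card_finset, Fintype.card_fin, nsmul_eq_mul]
        push_cast
        ring

end Pool.Agent.W262.SH
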