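import Mathlib
import Pool.Agent.W262.SH.Stm

/-!
# Quadratic characters of the absolute Galois group of `ℚ`
-/

namespace Pool.Agent.W262.SH

open scoped Classical

theorem galQB : IsGalois ℚ QB := by
  have h : (inferInstance : Algebra ℚ QB) = AlgebraicClosure.instAlgebra ℚ :=
    Subsingleton.elim _ _
  have h2 : @IsGalois ℚ _ QB _ (AlgebraicClosure.instAlgebra ℚ) := inferInstance
  rw [← h] at h2
  exact h2

theorem kum : KUM := by
  intro χ hlc hχ
  have : IsGalois ℚ QB := galQB
  have h1 : χ 1 = false := by
    have h := hχ 1 1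
    rw [one_mul] at h
    rw [h, Bool.xor_self]
  by_cases htriv : ∀ σ, χ σ = false
  · refine ⟨1, squarefree_one, fun s hs σ => ?_⟩
    have hs1 : s = 1 ∨ s = -1 := by
      have : (s - 1) * (s + 1) = 0 := by
        push_cast at hs
        linear_combination hs
      rcases mul_eq_zero.1 this with h | h
      · left; linear_combination h
      · right; linear_combination h
    refine ⟨fun _ => htriv σ, fun _ => ?_⟩
    rcases hs1 with rfl | rfl
    · exact map_one σ
    · rw [map_neg, map_one]
  · push Not at htriv
    obtain ⟨σ0, hσ0⟩ := htriv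
    have hσ0 : χ σ0 = true := by simpa using hσ0
    have hinv : ∀ σ, χ σ⁻¹ = χ σ := by
      intro σ
      have h := hχ σ σ⁻¹
      rw [mul_inv_cancel, h1] at h
      revert h
      cases χ σ <;> cases χ σ⁻¹ <;> simp
    let H : Subgroup (QB ≃ₐ[ℚ] QB) :=
      { carrier := {σ | χ σ = false}
        mul_mem' := by
          intro a b ha hb
          change χ (a * b) = false
          rw [hχ, show χ a = false from ha, show χ b = false from hb]
          rfl
        one_mem' := h1
        inv_mem' := by
          intro a ha
          change χ a⁻¹ = false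
          rw [hinv]
          exact ha }
    have hopen : IsOpen (H : Set (QB ≃ₐ[ℚ] QB)) := hlc.isOpen_fiber false
    have hclosed : IsClosed (H : Set (QB ≃ₐ[ℚ] QB)) := hlc.isClosed_fiber false
    let Hc : ClosedSubgroup (QB ≃ₐ[ℚ] QB) := ⟨H, hclosed⟩
    have hfix := InfiniteGalois.fixingSubgroup_fixedField (k := ℚ) (K := QB) Hc
    have hnot : σ0 ∉ (IntermediateField.fixedField H).fixingSubgroup := by
      intro h
      have h' : σ0 ∈ H := by
        have e : (IntermediateField.fixedField H).fixingSubgroup = H := hfix
        rwa [e] at h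
      have h'' : χ σ0 = false := h'
      rw [hσ0] at h''
      exact absurd h'' (by simp)
    rw [IntermediateField.mem_fixingSubgroup_iff] at hnot
    push Not at hnot
    obtain ⟨x, hx, hx2⟩ := hnot
    have hxH : ∀ σ, χ σ = false → σ x = x := by
      intro σ hσ
      rw [IntermediateField.mem_fixedField_iff] at hx
      exact hx σ hσ
    have hxN : ∀ σ, χ σ = true → σ x = σ0 x := by
      intro σ hσ
      have h : χ (σ0⁻¹ * σ) = false := by rw [hχ, hinv, hσ0, hσ]; rfl
      have h2 := hxH _ h
      rw [AlgEquiv.mul_apply] at h2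
      have h3 : σ0 (σ0⁻¹ (σ x)) = σ x := by
        rw [← AlgEquiv.mul_apply, mul_inv_cancel, AlgEquiv.one_apply]
      rw [← h3, h2]
    set y : QB := x - σ0 x with hy
    have hy0 : y ≠ 0 := by
      intro h
      exact hx2 (sub_eq_zero.1 h).symm
    have hyH : ∀ σ, χ σ = false → σ y = y := by
      intro σ hσ
      rw [hy, map_sub, hxH σ hσ, ← AlgEquiv.mul_apply, hxN (σ * σ0) (by rw [hχ, hσ, hσ0]; rfl)]
    have hyN : ∀ σ, χ σ = true → σ y = -y := by
      intro σ hσ
      rw [hy, map_sub, hxN σ hσ, ← AlgEquiv.mul_apply, hxH (σ * σ0) (by rw [hχ, hσ, hσ0]; rfl)]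
      ring
    have hyy : ∀ σ : QB ≃ₐ[ℚ] QB, σ (y ^ 2) = y ^ 2 := by
      intro σ
      rw [map_pow]
      rcases h : χ σ with _ | _
      · rw [hyH σ h]
      · rw [hyN σ h, neg_sq]
    obtain ⟨q, hq⟩ := (InfiniteGalois.mem_range_algebraMap_iff_fixed (y ^ 2)).2 hyy
    have hq0 : q ≠ 0 := by
      rintro rfl
      rw [map_zero] at hq
      exact hy0 (pow_eq_zero_iff (two_ne_zero) |>.1 hq.symm)
    -- the integer `num * den`
    set N : ℤ := q.num * q.den with hN
    have hN0 : N ≠ 0 := mul_ne_zero (Rat.num_ne_zero.2 hq0) (by exact_mod_cast q.den_ne_zero)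
    obtain ⟨e', c, hc, hsq⟩ := Nat.sq_mul_squarefree N.natAbs
    have hc0 : c ≠ 0 := by
      rintro rfl
      simp only [ne_eq, OfNat.ofNat_ne_zero, not_false_eq_true, zero_pow, zero_mul] at hc
      exact hN0 (Int.natAbs_eq_zero.1 hc.symm)
    refine ⟨N.sign * e', ?_, ?_⟩
    · have : (N.sign * e').natAbs = e' := by
        rw [Int.natAbs_mul, Int.natAbs_sign_of_ne_zero hN0, one_mul, Int.natAbs_natCast]
      rw [← Int.squarefree_natAbs, this]
      exact hsq
    · have hNe : N = (c : ℤ) ^ 2 * (N.sign * e') := by
        have h2 : (N.natAbs : ℤ) = (c : ℤ) ^ 2 * e' := by exact_mod_cast hc.symm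
        calc N = N.sign * (N.natAbs : ℤ) := (Int.sign_mul_natAbs N).symm
          _ = _ := by rw [h2]; ring
      have hden : (q.den : QB) ≠ 0 := by exact_mod_cast q.den_ne_zero
      have hcQ : (c : QB) ≠ 0 := by exact_mod_cast hc0
      set s0 : QB := y * q.den / c with hs0
      have hs0sq : s0 ^ 2 = ((N.sign * e' : ℤ) : QB) := by
        have h3 : y ^ 2 * (q.den : QB) ^ 2 = (N : QB) := by
          rw [← hq]
          have h4 : (q : QB) = algebraMap ℚ QB q := (eq_ratCast (algebraMap ℚ QB) q).symm
          have h5 : algebraMap ℚ QB q * (q.den : QB) ^ 2 =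
              algebraMap ℚ QB (q * (q.den : ℚ) ^ 2) := by
            rw [map_mul, map_pow, map_natCast]
          rw [h5]
          have h6 : q * (q.den : ℚ) ^ 2 = (N : ℚ) := by
            rw [hN]
            push_cast
            rw [pow_two, ← mul_assoc, Rat.mul_den_eq_num]
          rw [h6, map_intCast]
        have h7 : (N : QB) = (c : QB) ^ 2 * ((N.sign * e' : ℤ) : QB) := by
          conv_lhs => rw [hNe]
          push_cast
          ring
        rw [hs0, div_pow, mul_pow, h3, h7]
        field_simp
      have hs00 : s0 ≠ 0 := div_ne_zero (mul_ne_zero hy0 hden) hcQ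
      have hsig : ∀ σ : QB ≃ₐ[ℚ] QB, σ s0 = s0 ↔ χ σ = false := by
        intro σ
        have hm : σ s0 = σ y * q.den / c := by
          rw [hs0, map_div₀, map_mul, map_natCast, map_natCast]
        rcases h : χ σ with _ | _
        · rw [hm, hyH σ h, ← hs0]
          simp
        · rw [hm, hyN σ h]
          simp only [reduceCtorEq, iff_false]
          intro h8
          have h9 : -s0 = s0 := by
            have h13 : -y * (q.den : QB) / c = -s0 := by rw [hs0]; ring
            rw [← h13]
            exact h8
          have h10 : s0 = 0 := by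
            have : (2 : QB) * s0 = 0 := by linear_combination -h9
            rcases mul_eq_zero.1 this with h | h
            · exact absurd h two_ne_zero
            · exact h
          exact hs00 h10
      intro s hs σ
      have h11 : s = s0 ∨ s = -s0 := by
        have h12 : (s - s0) * (s + s0) = 0 := by linear_combination hs - hs0sq
        rcases mul_eq_zero.1 h12 with h | h
        · left; linear_combination h
        · right; linear_combination h
      rcases h11 with rfl | rfl
      · exact hsig σ
      · rw [map_neg, neg_inj]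
        exact hsig σ

end Pool.Agent.W262.SH
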