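import Mathlib
import Pool.Agent.W262.SH.FamK
import Pool.Agent.W262.SH.Kum
import Pool.Agent.W131.SH.Locl2
import Pool.Agent.W839.SH.Desc5
import Pool.Agent.W177.SH.Div
import Pool.Agent.W333.SH.Dup
import Pool.Agent.W782.SH.LocX
import Pool.Agent.W334.SH.Sh1
import Pool.Agent.W338.SH.Sh2
import Pool.Agent.W378.SM.RSB
import Pool.Agent.W481.SM.RV
import Pool.Agent.W469.SM.Comb
import Pool.Agent.W469.SM.Sub

/-!
# The parts of project SM
-/

namespace Pool.Agent.W262.SH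

theorem parts_of (hexp : EXPK) : Parts where
  desc := Pool.Agent.W839.SH.desc5 Pool.Agent.W131.SH.good2
  loc := Pool.Agent.W131.SH.locl2
  sh1 := Pool.Agent.W334.SH.sh1 kum (Pool.Agent.W782.SH.locx Pool.Agent.W333.SH.dup)
  sh2 := Pool.Agent.W338.SH.sh2 Pool.Agent.W177.SH.div
  exp := hexp
  comb := Pool.Agent.W469.SM.Comb.combk
  sub := Pool.Agent.W469.SM.Sub.subbk
  rs := Pool.Agent.W378.SM.rsb
  rv := Pool.Agent.W481.SM.rvb

end Pool.Agent.W262.SH
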