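import Mathlib
import Pool.Agent.W262.SH.Prt
import Pool.Agent.W74.SM.Exp2

/-!
# The parts of project SM, complete
-/

namespace Pool.Agent.W262.SH

theorem parts : Parts := parts_of Pool.Agent.W74.SM.expk

end Pool.Agent.W262.SH
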