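import Mathlib
import Pool.Agent.W262.SH.Stm

/-!
# The Tate-Shafarevich group: compact definitions

Project SH (helper262): the definitions used in the statements of the results. They agree with
those of `Stm.lean`.
-/

namespace Pool.Agent.W262.SH

open WeierstrassCurve

open scoped Classical

/-- the absolute Galois group of `ℚ` -/
abbrev GQ : Type := QB ≃ₐ[ℚ] QB

/-- the group law of the elliptic curve (the one of Mathlib) -/
noncomputable instance ptGrp (W : WeierstrassCurve ℚ) (L : Type) [Field L] [Algebra ℚ L] :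
    AddCommGroup (Pt W L) :=
  WeierstrassCurve.Affine.Point.instAddCommGroup

section generic

variable {G M : Type} [Group G] [TopologicalSpace G] [AddCommGroup M]

/-- the continuous cocycles -/
def Z1 (a : G → M →+ M) : AddSubgroup (G → M) where
  carrier := {f | IsLocallyConstant f ∧ ∀ σ τ, f (σ * τ) = f σ + a σ (f τ)}
  zero_mem' := ⟨IsLocallyConstant.const _, fun σ τ => by simp⟩
  add_mem' := by
    rintro f g ⟨hf1, hf2⟩ ⟨hg1, hg2⟩
    refine ⟨hf1.add hg1, fun σ τ => ?_⟩
    simp only [Pi.add_apply, hf2, hg2, map_add]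
    abel
  neg_mem' := by
    rintro f ⟨hf1, hf2⟩
    refine ⟨hf1.neg, fun σ τ => ?_⟩
    simp only [Pi.neg_apply, hf2, map_neg]
    abel

/-- the coboundaries -/
def B1 (a : G → M →+ M) : AddSubgroup (G → M) where
  carrier := {f | ∃ P, ∀ σ, f σ = a σ P - P}
  zero_mem' := ⟨0, fun σ => by simp⟩
  add_mem' := by
    rintro f g ⟨P, hP⟩ ⟨Q, hQ⟩
    refine ⟨P + Q, fun σ => ?_⟩
    simp only [Pi.add_apply, map_add, hP, hQ]
    abel
  neg_mem' := by
    rintro f ⟨P, hP⟩
    refine ⟨-P, fun σ => ?_⟩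
    simp only [Pi.neg_apply, map_neg, hP]
    abel

end generic

/-- the subgroup given by a predicate -/
def mkSub {A : Type} [AddCommGroup A] (P : A → Prop) (h0 : P 0)
    (ha : ∀ {x y}, P x → P y → P (x + y)) (hn : ∀ {x}, P x → P (-x)) : AddSubgroup A where
  carrier := {x | P x}
  zero_mem' := h0
  add_mem' := ha
  neg_mem' := hn

/-- the quotient `S / (S ∩ B)` -/
abbrev Qt {A : Type} [AddCommGroup A] (S B : AddSubgroup A) : Type := S ⧸ B.addSubgroupOf S

/-- the addition of the quotient -/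
instance qtAdd {A : Type} [AddCommGroup A] (S B : AddSubgroup A) : AddCommGroup (Qt S B) :=
  QuotientAddGroup.Quotient.addCommGroup (B.addSubgroupOf S)

/-- the 2-torsion -/
abbrev Two (A : Type) [AddCommGroup A] : Type := {c : A // c + c = 0}

/-- the action of `Gal(ℚ̄/ℚ)` on the points -/
noncomputable def gact (W : WeierstrassCurve ℚ) (σ : GQ) : Pt W QB →+ Pt W QB :=
  act W σ.toAlgHom

/-- the pullback of `f` to `Gal(Ω/K)` along the embedding `ι` of `ℚ̄` in `Ω` is a coboundary -/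
def LocI (W : WeierstrassCurve ℚ) {K Ω : Type} [Field K] [Algebra ℚ K] [Field Ω] [Algebra K Ω]
    [Algebra ℚ Ω] [IsScalarTower ℚ K Ω] (ι : QB →ₐ[ℚ] Ω) (f : GQ → Pt W QB) : Prop :=
  ∃ P : Pt W Ω, ∀ (τ : Ω ≃ₐ[K] Ω) (σ : GQ), (∀ x, τ (ι x) = ι (σ x)) →
    act W ι (f σ) = act W (τ.toAlgHom.restrictScalars ℚ) P - P

/-- the restriction to the absolute Galois group of `K` is a coboundary; `K` is `ℚ_p` or `ℝ` -/
def LocT (W : WeierstrassCurve ℚ) (K : Type) [Field K] [Algebra ℚ K] (f : GQ → Pt W QB) : Prop :=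
  ∀ ι : QB →ₐ[ℚ] AlgebraicClosure K, LocI W (K := K) ι f

/-- the continuous cocycles that are locally trivial at all places of `ℚ` -/
def IsS (W : WeierstrassCurve ℚ) (f : GQ → Pt W QB) : Prop :=
  f ∈ Z1 (gact W) ∧ (∀ (p : ℕ) [Fact p.Prime], LocT W ℚ_[p] f) ∧ LocT W ℝ f

theorem locT_iff (W : WeierstrassCurve ℚ) (K : Type) [Field K] [Algebra ℚ K]
    (f : GQ → Pt W QB) : LocT W K f ↔ LocTriv W K f := by
  have h : ∀ (ι : QB →ₐ[ℚ] AlgebraicClosure K)
      (τ : AlgebraicClosure K ≃ₐ[K] AlgebraicClosure K) (σ : GQ),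
      (∀ x, τ (ι x) = ι (σ x)) ↔ (τ.toAlgHom.restrictScalars ℚ).comp ι = ι.comp σ.toAlgHom := by
    intro ι τ σ
    constructor
    · intro h
      ext x
      exact h x
    · intro h x
      exact DFunLike.congr_fun h x
  unfold LocT LocTriv
  refine forall_congr' fun ι => ?_
  unfold LocI
  refine exists_congr fun P => forall_congr' fun τ => forall_congr' fun σ => ?_
  rw [h]

theorem isS_iff (W : WeierstrassCurve ℚ) (f : GQ → Pt W QB) : IsS W f ↔ f ∈ shaCoc W := by
  unfold IsS
  simp only [locT_iff]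
  rfl

theorem isS_zero (W : WeierstrassCurve ℚ) : IsS W 0 := (isS_iff W 0).2 (shaCoc W).zero_mem

theorem isS_add (W : WeierstrassCurve ℚ) {f g : GQ → Pt W QB} (hf : IsS W f) (hg : IsS W g) :
    IsS W (f + g) :=
  (isS_iff W _).2 ((shaCoc W).add_mem ((isS_iff W f).1 hf) ((isS_iff W g).1 hg))

theorem isS_neg (W : WeierstrassCurve ℚ) {f : GQ → Pt W QB} (hf : IsS W f) : IsS W (-f) :=
  (isS_iff W _).2 ((shaCoc W).neg_mem ((isS_iff W f).1 hf))

/-- the group of the continuous cocycles that are locally trivial at all places of `ℚ` -/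
noncomputable def ZS (W : WeierstrassCurve ℚ) : AddSubgroup (GQ → Pt W QB) :=
  mkSub (IsS W) (isS_zero W) (isS_add W) (isS_neg W)

/-- the Tate-Shafarevich group of `W` over `ℚ` -/
abbrev ShaQ (W : WeierstrassCurve ℚ) : Type := Qt (ZS W) (B1 (gact W))

/-- the 2-torsion of the Tate-Shafarevich group of `W` over `ℚ` -/
abbrev Sha2 (W : WeierstrassCurve ℚ) : Type := Two (ShaQ W)

theorem sha2_eq (W : WeierstrassCurve ℚ) : Sha2 W = {c : Sha W // c + c = 0} := by
  have h : ZS W = shaCoc W := by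
    ext f
    exact isS_iff W f
  have h2 : ∀ S : AddSubgroup (GQ → Pt W QB), S = shaCoc W →
      Two (Qt S (B1 (gact W))) = {c : Sha W // c + c = 0} := by
    rintro S rfl
    rfl
  exact h2 _ h

end Pool.Agent.W262.SH
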