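import Mathlib
import Pool.Agent.W262.SH.Def
import Pool.Agent.W262.SH.StmC

/-!
# The Tate-Shafarevich group of twisted powers: compact definitions

Project SHC (helper262): the definitions used in the statements of the results. They agree with
those of `StmC.lean`.
-/

namespace Pool.Agent.W262.SH

open WeierstrassCurve

open scoped Classical

/-- integral representations of the group `{±1}^n` -/
abbrev Rep (n g : ℕ) : Type := (Fin n → ℤˣ) →* (Matrix (Fin g) (Fin g) ℤ)ˣ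

/-- the points of `E ^ g` -/
abbrev Pw (W : WeierstrassCurve ℚ) (g : ℕ) (L : Type) [Field L] [Algebra ℚ L] : Type :=
  Fin g → Pt W L

/-- the group structure of `E ^ g` -/
noncomputable instance pwGrp (W : WeierstrassCurve ℚ) (g : ℕ) (L : Type) [Field L]
    [Algebra ℚ L] : AddCommGroup (Pw W g L) :=
  Pi.addCommGroup

/-- the action of the automorphism `τ` on the points of the twist `A` of `E ^ g` by `ρ` -/
noncomputable def tw {n g : ℕ} (W : WeierstrassCurve ℚ) (D : Fin n → ℤ) (ρ : Rep n g)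
    {L : Type} [Field L] [Algebra ℚ L] (τ : L →ₐ[ℚ] L) (P : Pw W g L) : Pw W g L :=
  fun i => ∑ j, (ρ (chi D τ)).val i j • act W τ (P j)

theorem tw_eq {n g : ℕ} (W : WeierstrassCurve ℚ) (D : Fin n → ℤ) (ρ : Rep n g)
    {L : Type} [Field L] [Algebra ℚ L] (τ : L →ₐ[ℚ] L) (P : Pw W g L) :
    tw W D ρ τ P = tact W D ρ τ P := rfl

theorem tw_add {n g : ℕ} (W : WeierstrassCurve ℚ) (D : Fin n → ℤ) (ρ : Rep n g)
    {L : Type} [Field L] [Algebra ℚ L] (τ : L →ₐ[ℚ] L) (P Q : Pw W g L) :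
    tw W D ρ τ (P + Q) = tw W D ρ τ P + tw W D ρ τ Q :=
  tact_add W D ρ τ P Q

/-- the action of `Gal(ℚ̄/ℚ)` on the points of `A` -/
noncomputable def gtw {n g : ℕ} (W : WeierstrassCurve ℚ) (D : Fin n → ℤ) (ρ : Rep n g) (σ : GQ) :
    Pw W g QB →+ Pw W g QB :=
  AddMonoidHom.mk' (tw W D ρ σ.toAlgHom) (tw_add W D ρ σ.toAlgHom)

/-- the pullback of `f` to `Gal(Ω/K)` along the embedding `ι` of `ℚ̄` in `Ω` is a coboundary -/
def LocA {n g : ℕ} (W : WeierstrassCurve ℚ) (D : Fin n → ℤ) (ρ : Rep n g) {K Ω : Type} [Field K]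
    [Algebra ℚ K] [Field Ω] [Algebra K Ω] [Algebra ℚ Ω] [IsScalarTower ℚ K Ω] (ι : QB →ₐ[ℚ] Ω)
    (f : GQ → Pw W g QB) : Prop :=
  ∃ P : Pw W g Ω, ∀ (τ : Ω ≃ₐ[K] Ω) (σ : GQ), (∀ x, τ (ι x) = ι (σ x)) →
    (fun i => act W ι (f σ i)) = tw W D ρ (τ.toAlgHom.restrictScalars ℚ) P - P

/-- the restriction to the absolute Galois group of `K` is a coboundary; `K` is `ℚ_p` or `ℝ` -/
def LocTA {n g : ℕ} (W : WeierstrassCurve ℚ) (D : Fin n → ℤ) (ρ : Rep n g) (K : Type) [Field K]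
    [Algebra ℚ K] (f : GQ → Pw W g QB) : Prop :=
  ∀ ι : QB →ₐ[ℚ] AlgebraicClosure K, LocA W D ρ (K := K) ι f

/-- the continuous cocycles that are locally trivial at all places of `ℚ` -/
def IsSA {n g : ℕ} (W : WeierstrassCurve ℚ) (D : Fin n → ℤ) (ρ : Rep n g)
    (f : GQ → Pw W g QB) : Prop :=
  f ∈ Z1 (gtw W D ρ) ∧ (∀ (p : ℕ) [Fact p.Prime], LocTA W D ρ ℚ_[p] f) ∧ LocTA W D ρ ℝ f

theorem locTA_iff {n g : ℕ} (W : WeierstrassCurve ℚ) (D : Fin n → ℤ) (ρ : Rep n g) (K : Type)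
    [Field K] [Algebra ℚ K] (f : GQ → Pw W g QB) : LocTA W D ρ K f ↔ LocTrivA W D ρ K f := by
  have h : ∀ (ι : QB →ₐ[ℚ] AlgebraicClosure K)
      (τ : AlgebraicClosure K ≃ₐ[K] AlgebraicClosure K) (σ : GQ),
      (∀ x, τ (ι x) = ι (σ x)) ↔ (τ.toAlgHom.restrictScalars ℚ).comp ι = ι.comp σ.toAlgHom := by
    intro ι τ σ
    constructor
    · intro h
      ext x
      exact h x
    · intro h x
      exact DFunLike.congr_fun h x
  unfold LocTA LocTrivA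
  refine forall_congr' fun ι => ?_
  unfold LocA
  refine exists_congr fun P => forall_congr' fun τ => forall_congr' fun σ => ?_
  rw [h]
  rfl

theorem isSA_iff {n g : ℕ} (W : WeierstrassCurve ℚ) (D : Fin n → ℤ) (ρ : Rep n g)
    (f : GQ → Pw W g QB) : IsSA W D ρ f ↔ f ∈ shaCocA W D ρ := by
  unfold IsSA
  simp only [locTA_iff]
  rfl

theorem isSA_zero {n g : ℕ} (W : WeierstrassCurve ℚ) (D : Fin n → ℤ) (ρ : Rep n g) :
    IsSA W D ρ 0 := (isSA_iff W D ρ 0).2 (shaCocA W D ρ).zero_mem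

theorem isSA_add {n g : ℕ} (W : WeierstrassCurve ℚ) (D : Fin n → ℤ) (ρ : Rep n g)
    {f h : GQ → Pw W g QB} (hf : IsSA W D ρ f) (hh : IsSA W D ρ h) : IsSA W D ρ (f + h) :=
  (isSA_iff W D ρ _).2 ((shaCocA W D ρ).add_mem ((isSA_iff W D ρ f).1 hf)
    ((isSA_iff W D ρ h).1 hh))

theorem isSA_neg {n g : ℕ} (W : WeierstrassCurve ℚ) (D : Fin n → ℤ) (ρ : Rep n g)
    {f : GQ → Pw W g QB} (hf : IsSA W D ρ f) : IsSA W D ρ (-f) :=
  (isSA_iff W D ρ _).2 ((shaCocA W D ρ).neg_mem ((isSA_iff W D ρ f).1 hf))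

/-- the group of the locally trivial cocycles with values in `A(ℚ̄)` -/
noncomputable def ZA {n g : ℕ} (W : WeierstrassCurve ℚ) (D : Fin n → ℤ) (ρ : Rep n g) :
    AddSubgroup (GQ → Pw W g QB) :=
  mkSub (IsSA W D ρ) (isSA_zero W D ρ) (isSA_add W D ρ) (isSA_neg W D ρ)

/-- the Tate-Shafarevich group of `A` over `ℚ` -/
abbrev ShaAb {n g : ℕ} (W : WeierstrassCurve ℚ) (D : Fin n → ℤ) (ρ : Rep n g) : Type :=
  Qt (ZA W D ρ) (B1 (gtw W D ρ))

/-- `A` contains `(ℤ/q)^r` -/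
def HasZ (A : Type) [AddCommGroup A] (q r : ℕ) : Prop :=
  ∃ j : (Fin r → ZMod q) →+ A, Function.Injective j

/-- `P` is a rational point of `A` -/
def IsRat {n g : ℕ} (W : WeierstrassCurve ℚ) (D : Fin n → ℤ) (ρ : Rep n g) (P : Pw W g QB) :
    Prop :=
  ∀ σ : GQ, gtw W D ρ σ P = P

theorem isRat_zero {n g : ℕ} (W : WeierstrassCurve ℚ) (D : Fin n → ℤ) (ρ : Rep n g) :
    IsRat W D ρ 0 := fun _ => map_zero _

theorem isRat_add {n g : ℕ} (W : WeierstrassCurve ℚ) (D : Fin n → ℤ) (ρ : Rep n g)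
    {P Q : Pw W g QB} (hP : IsRat W D ρ P) (hQ : IsRat W D ρ Q) : IsRat W D ρ (P + Q) :=
  fun σ => by rw [map_add, hP σ, hQ σ]

theorem isRat_neg {n g : ℕ} (W : WeierstrassCurve ℚ) (D : Fin n → ℤ) (ρ : Rep n g)
    {P : Pw W g QB} (hP : IsRat W D ρ P) : IsRat W D ρ (-P) :=
  fun σ => by rw [map_neg, hP σ]

/-- the group `A(ℚ)` -/
noncomputable def AQ {n g : ℕ} (W : WeierstrassCurve ℚ) (D : Fin n → ℤ) (ρ : Rep n g) :
    AddSubgroup (Pw W g QB) :=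
  mkSub (IsRat W D ρ) (isRat_zero W D ρ) (isRat_add W D ρ) (isRat_neg W D ρ)

/-- the rank of a subgroup -/
noncomputable def rkS {A : Type} [AddCommGroup A] (S : AddSubgroup A) : ℕ :=
  Module.finrank ℤ S

theorem rkS_eq {n g : ℕ} (W : WeierstrassCurve ℚ) (D : Fin n → ℤ) (ρ : Rep n g) :
    rkS (AQ W D ρ) = Module.finrank ℤ (ratA W D ρ) := rfl

theorem has_shaAb {n g : ℕ} (W : WeierstrassCurve ℚ) (D : Fin n → ℤ) (ρ : Rep n g) (q r : ℕ) :
    HasZ (ShaAb W D ρ) q r ↔ ∃ j : (Fin r → ZMod q) →+ ShaA W D ρ, Function.Injective j := by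
  have h : ZA W D ρ = shaCocA W D ρ := by
    ext f
    exact isSA_iff W D ρ f
  have h2 : ∀ S : AddSubgroup (GQ → Pw W g QB), S = shaCocA W D ρ →
      (HasZ (Qt S (B1 (gtw W D ρ))) q r ↔
      ∃ j : (Fin r → ZMod q) →+ ShaA W D ρ, Function.Injective j) := by
    rintro S rfl
    rfl
  exact h2 _ h

end Pool.Agent.W262.SH
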