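import Mathlib
import Pool.Agent.W262.SH.FamB
import Pool.Agent.W262.SH.StmD

/-!
# Families of twisted powers, sharp form

Project SHC (helper262): the bound for the average of `2 ^ ((rank + r) / dim)`.
-/

namespace Pool.Agent.W262.SH

open Finset Pool.Agent.W262.RK

open scoped Classical in
/-- the pointwise bound for the twist of `E ^ g` -/
theorem ptD (hdesc : DESC5) (h1 : SH1) (h2 : SH2) (hlat : LAT) (hphi : PHIA2) (hgrp : GRP)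
    (hrk : RKA2) {l g : ℕ} (hg : 0 < g) (D : Fin l → ℤ)
    (ρ : (Fin l → ℤˣ) →* (Matrix (Fin g) (Fin g) ℤ)ˣ)
    {A B : ℤ} (hA : A ≠ 0) (hB : B ≠ 0) (hAB : A ≠ B)
    (hD : ∀ i, D i ≠ 0) (r : ℕ)
    (j : (Fin r → ZMod (2 ^ (l + 1))) →+ ShaA (E A B) D ρ) (hj : Function.Injective j) :
    (2 : ℝ) ^ (((Module.finrank ℤ (ratA (E A B) D ρ) + r : ℕ) : ℝ) / g) ≤
      ∑ S : Finset (Fin l), wt ((∏ i ∈ S, D i) * A) ((∏ i ∈ S, D i) * B) := by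
  obtain ⟨m, M, N, hd⟩ := hlat l g ρ
  have hsum := hd.1
  have hS0 : ∀ S : Finset (Fin l), (∏ i ∈ S, D i) ≠ 0 := fun S =>
    prod_ne_zero_iff.2 fun i _ => hD i
  obtain ⟨Φ, hΦ⟩ := hphi l g D ρ m M N hd A B hA hB hAB hD
  obtain ⟨hf, hc⟩ := card_two (fun S : (S : Finset (Fin l)) × Fin (m S) =>
    Sha (E ((∏ i ∈ S.1, D i) * A) ((∏ i ∈ S.1, D i) * B))) (fun S =>
    fin_sha hdesc h1 h2 (mul_ne_zero (hS0 S.1) hA) (mul_ne_zero (hS0 S.1) hB)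
      (fun h => hAB (mul_left_cancel₀ (hS0 S.1) h)))
  have h3 := hgrp l r _ _ Φ hΦ j hj hf
  rw [hc] at h3
  have h4 := hrk l g D ρ m M N hd A B hA hB hAB hD
  have hcard : Fintype.card ((S : Finset (Fin l)) × Fin (m S)) = g := by
    rw [Fintype.card_sigma]
    simpa using hsum
  have hne : Nonempty ((S : Finset (Fin l)) × Fin (m S)) := by
    rw [← Fintype.card_pos_iff, hcard]
    exact hg
  have h5 := amgm (fun S : (S : Finset (Fin l)) × Fin (m S) =>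
    wt ((∏ i ∈ S.1, D i) * A) ((∏ i ∈ S.1, D i) * B))
    (fun S => wt_nonneg _ _) ((Module.finrank ℤ (ratA (E A B) D ρ) + r : ℕ) : ℝ) (by
      unfold wt
      rw [Real.rpow_natCast, prod_mul_distrib, prod_pow_eq_pow_sum, pow_add]
      refine mul_le_mul (pow_le_pow_right₀ (by norm_num) h4) ?_ (by positivity) (by positivity)
      exact_mod_cast h3)
  rw [hcard] at h5
  refine h5.trans ?_
  rw [Fintype.sum_sigma]
  simp only [sum_const, card_univ, Fintype.card_fin, nsmul_eq_mul]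
  rw [mul_sum]
  refine sum_le_sum fun S _ => ?_
  have hm : (m S : ℝ) ≤ g := by
    have : m S ≤ ∑ S, m S := single_le_sum (fun _ _ => Nat.zero_le _) (mem_univ S)
    rw [hsum] at this
    exact_mod_cast this
  have hg' : (0 : ℝ) < g := by exact_mod_cast hg
  have hw := wt_nonneg ((∏ i ∈ S, D i) * A) ((∏ i ∈ S, D i) * B)
  calc (g : ℝ)⁻¹ * (m S * wt ((∏ i ∈ S, D i) * A) ((∏ i ∈ S, D i) * B))
      ≤ (g : ℝ)⁻¹ * (g * wt ((∏ i ∈ S, D i) * A) ((∏ i ∈ S, D i) * B)) := by gcongr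
    _ = wt ((∏ i ∈ S, D i) * A) ((∏ i ∈ S, D i) * B) := by
        rw [← mul_assoc, inv_mul_cancel₀ hg'.ne', one_mul]

open scoped Classical in
/-- the averages for the twists of the powers -/
theorem famD (hdesc : DESC5) (hloc : LOCL2) (h1 : SH1) (h2 : SH2) (hlat : LAT) (hphi : PHIA2)
    (hgrp : GRP) (hrk : RKA2) {n l d : ℕ} (hd : 0 < d) {J T : Type}
    [Fintype J] [Fintype T] (a : Fin 3 → ℤ) (γ δ : J → ℤ) (α β : Fin 3 → Fin n → ℤ)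
    (b : Fin l → ℤ) (g : T → Fin l) (μ ν : T → ℤ)
    (ρ : (Fin l → ℤˣ) →* (Matrix (Fin d) (Fin d) ℤ)ˣ)
    (ha : ∀ k, a k ≠ 0) (hα : ∀ k i, α k i ≠ 0) (hγ : ∀ i, γ i ≠ 0) (hb : ∀ i, b i ≠ 0)
    (hμ : ∀ j, μ j ≠ 0)
    (hh1 : ∀ k i l j, (k, i) ≠ (l, j) → α k i * β l j ≠ α l j * β k i)
    (hh2 : ∀ i j, i ≠ j → γ i * δ j ≠ γ j * δ i)
    (hh3 : ∀ k i j, α k i * δ j ≠ γ j * β k i)
    (hh4 : ∀ i j, i ≠ j → μ i * ν j ≠ μ j * ν i)
    (hh5 : ∀ k i j, α k i * ν j ≠ μ j * β k i)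
    (hh6 : ∀ i j, γ i * ν j ≠ μ j * δ i)
    (hF : ∀ t : ℤ, Fm a γ δ α β 0 t - Fm a γ δ α β 1 t = Fm a γ δ α β 2 t) :
    ∃ C : ℝ, ∀ r : ℤ → ℕ,
      (∀ t, (∀ k, Fm a γ δ α β k t ≠ 0) → (∀ i, Dm b g μ ν i t ≠ 0) →
        ∃ j : (Fin (r t) → ZMod (2 ^ (l + 1))) →+
          ShaA (E (Fm a γ δ α β 0 t) (Fm a γ δ α β 1 t)) (fun i => Dm b g μ ν i t) ρ,
        Function.Injective j) →
      ∀ X : ℕ, 1 ≤ X →
      ∑ t ∈ (Icc (-(X : ℤ)) X).filter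
        (fun t : ℤ => (∀ k, Fm a γ δ α β k t ≠ 0) ∧ ∀ i, Dm b g μ ν i t ≠ 0),
        (2 : ℝ) ^ (((Module.finrank ℤ (ratA (E (Fm a γ δ α β 0 t) (Fm a γ δ α β 1 t))
          (fun i => Dm b g μ ν i t) ρ) + r t : ℕ) : ℝ) / d) ≤ C * X := by
  obtain ⟨C, hC0, hC⟩ := famS hdesc hloc h1 h2 a γ δ α β b g μ ν ha hα hγ hb hμ hh1 hh2 hh3 hh4
    hh5 hh6 hF
  refine ⟨2 ^ l * C, fun r hr X hX => ?_⟩
  calc _ ≤ ∑ t ∈ (Icc (-(X : ℤ)) X).filter
        (fun t : ℤ => (∀ k, Fm a γ δ α β k t ≠ 0) ∧ ∀ i, Dm b g μ ν i t ≠ 0),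
        ∑ S : Finset (Fin l),
        wt ((∏ i ∈ S, Dm b g μ ν i t) * Fm a γ δ α β 0 t)
          ((∏ i ∈ S, Dm b g μ ν i t) * Fm a γ δ α β 1 t) := by
        refine sum_le_sum fun t ht => ?_
        have ht2 := (mem_filter.1 ht).2
        obtain ⟨j, hj⟩ := hr t ht2.1 ht2.2
        refine ptD hdesc h1 h2 hlat hphi hgrp hrk hd _ ρ (ht2.1 0) (ht2.1 1) ?_ ht2.2 (r t) j hj
        intro h3
        apply ht2.1 2
        rw [← hF, h3, sub_self]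
    _ ≤ ∑ S : Finset (Fin l), C * X := by
        rw [sum_comm]
        exact sum_le_sum fun S _ => hC X hX S
    _ = 2 ^ l * C * X := by
        rw [sum_const, card_univ, Fintype.card_finset, Fintype.card_fin, nsmul_eq_mul]
        push_cast
        ring

end Pool.Agent.W262.SH
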