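import Mathlib
import Pool.Agent.W262.SH.Def
import Pool.Agent.W262.SH.StmB

/-!
# The Tate-Shafarevich group over a number field: compact definitions

Project SHB (helper262): the definitions used in the statements of the results. They agree with
those of `StmB.lean`.
-/

namespace Pool.Agent.W262.SH

open WeierstrassCurve

open scoped Classical

/-- the group structure of `Gal(ℚ̄/ℚ)` -/
noncomputable instance gqGrp : Group GQ := AlgEquiv.aut

/-- the Krull topology of `Gal(ℚ̄/ℚ)` -/
noncomputable instance gqTop : TopologicalSpace GQ := krullTopology ℚ QB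

/-- the subgroup `H` as a type -/
abbrev SubG {G : Type} [Group G] (H : Subgroup G) : Type := H

instance subGrp {G : Type} [Group G] (H : Subgroup G) : Group (SubG H) := H.toGroup

instance subTop {G : Type} [Group G] [TopologicalSpace G] (H : Subgroup G) :
    TopologicalSpace (SubG H) :=
  instTopologicalSpaceSubtype

/-- the automorphisms of `ℚ̄` that fix `L` -/
noncomputable def fixG (L : IntermediateField ℚ QB) : Subgroup GQ := L.fixingSubgroup

/-- `Gal(ℚ̄/L)` -/
abbrev Gal (L : IntermediateField ℚ QB) : Type := SubG (fixG L)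

/-- the inclusion of `Gal(ℚ̄/L)` in `Gal(ℚ̄/ℚ)` -/
def inG (L : IntermediateField ℚ QB) (σ : Gal L) : GQ := σ.1

/-- the action of `Gal(ℚ̄/L)` on the points -/
noncomputable def nact (W : WeierstrassCurve ℚ) (L : IntermediateField ℚ QB) (σ : Gal L) :
    Pt W QB →+ Pt W QB :=
  gact W (inG L σ)

/-- the pullback of `f` along the embedding `ι` of `ℚ̄` in `Ω` is a coboundary -/
def LocN (W : WeierstrassCurve ℚ) {L : IntermediateField ℚ QB} {K Ω : Type} [Field K]
    [Algebra ℚ K] [Field Ω] [Algebra K Ω] [Algebra ℚ Ω] [IsScalarTower ℚ K Ω]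
    (ι : QB →ₐ[ℚ] Ω) (f : Gal L → Pt W QB) : Prop :=
  ∃ P : Pt W Ω, ∀ (τ : Ω ≃ₐ[K] Ω) (σ : Gal L), (∀ x, τ (ι x) = ι (inG L σ x)) →
    act W ι (f σ) = act W (τ.toAlgHom.restrictScalars ℚ) P - P

/-- the restrictions to the absolute Galois groups of the completions of `L` at the places over
`K` are coboundaries; `K` is `ℚ_p` or `ℝ`, the places are given by the embeddings `ι` -/
def LocTN (W : WeierstrassCurve ℚ) {L : IntermediateField ℚ QB} (K : Type) [Field K]
    [Algebra ℚ K] (f : Gal L → Pt W QB) : Prop :=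
  ∀ ι : QB →ₐ[ℚ] AlgebraicClosure K, LocN W (K := K) ι f

/-- the continuous cocycles of `Gal(ℚ̄/L)` that are locally trivial at all places of `L` -/
def IsSN (W : WeierstrassCurve ℚ) {L : IntermediateField ℚ QB} (f : Gal L → Pt W QB) : Prop :=
  f ∈ Z1 (nact W L) ∧ (∀ (p : ℕ) [Fact p.Prime], LocTN W ℚ_[p] f) ∧ LocTN W ℝ f

theorem locTN_iff (W : WeierstrassCurve ℚ) {L : IntermediateField ℚ QB} (K : Type) [Field K]
    [Algebra ℚ K] (f : Gal L → Pt W QB) : LocTN W K f ↔ LocTrivK W L K f := by
  have h : ∀ (ι : QB →ₐ[ℚ] AlgebraicClosure K)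
      (τ : AlgebraicClosure K ≃ₐ[K] AlgebraicClosure K) (σ : L.fixingSubgroup),
      (∀ x, τ (ι x) = ι (inG L σ x)) ↔
      (τ.toAlgHom.restrictScalars ℚ).comp ι = ι.comp (σ : QB ≃ₐ[ℚ] QB).toAlgHom := by
    intro ι τ σ
    constructor
    · intro h
      ext x
      exact h x
    · intro h x
      exact DFunLike.congr_fun h x
  unfold LocTN LocTrivK
  refine forall_congr' fun ι => ?_
  unfold LocN
  refine exists_congr fun P => forall_congr' fun τ => forall_congr' fun σ => ?_
  rw [h]

theorem isSN_iff (W : WeierstrassCurve ℚ) {L : IntermediateField ℚ QB} (f : Gal L → Pt W QB) :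
    IsSN W f ↔ f ∈ shaCocK W L := by
  unfold IsSN
  simp only [locTN_iff]
  rfl

theorem isSN_zero (W : WeierstrassCurve ℚ) (L : IntermediateField ℚ QB) :
    IsSN W (0 : Gal L → Pt W QB) := (isSN_iff W 0).2 (shaCocK W L).zero_mem

theorem isSN_add (W : WeierstrassCurve ℚ) (L : IntermediateField ℚ QB) {f g : Gal L → Pt W QB}
    (hf : IsSN W f) (hg : IsSN W g) : IsSN W (f + g) :=
  (isSN_iff W _).2 ((shaCocK W L).add_mem ((isSN_iff W f).1 hf) ((isSN_iff W g).1 hg))

theorem isSN_neg (W : WeierstrassCurve ℚ) (L : IntermediateField ℚ QB) {f : Gal L → Pt W QB}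
    (hf : IsSN W f) : IsSN W (-f) :=
  (isSN_iff W _).2 ((shaCocK W L).neg_mem ((isSN_iff W f).1 hf))

/-- the group of the locally trivial cocycles of `Gal(ℚ̄/L)` -/
noncomputable def ZN (W : WeierstrassCurve ℚ) (L : IntermediateField ℚ QB) :
    AddSubgroup (Gal L → Pt W QB) :=
  mkSub (IsSN W) (isSN_zero W L) (isSN_add W L) (isSN_neg W L)

/-- the Tate-Shafarevich group of `W` over the number field `L` -/
abbrev ShaN (W : WeierstrassCurve ℚ) (L : IntermediateField ℚ QB) : Type :=
  Qt (ZN W L) (B1 (nact W L))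

/-- `A` contains `(ℤ/q)^r` -/
def Has (A : Type) [AddCommGroup A] (q r : ℕ) : Prop :=
  ∃ j : (Fin r → ZMod q) →+ A, Function.Injective j

/-- the rank of the group of the points over `L` -/
noncomputable def rkN (W : WeierstrassCurve ℚ) (L : IntermediateField ℚ QB) : ℕ :=
  Module.finrank ℤ (Pt W L)

theorem has_shaN (W : WeierstrassCurve ℚ) (L : IntermediateField ℚ QB) (q r : ℕ) :
    Has (ShaN W L) q r ↔ ∃ j : (Fin r → ZMod q) →+ ShaK W L, Function.Injective j := by
  have h : ZN W L = shaCocK W L := by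
    ext f
    exact isSN_iff W f
  have h2 : ∀ S : AddSubgroup (Gal L → Pt W QB), S = shaCocK W L →
      (Has (Qt S (B1 (nact W L))) q r ↔
      ∃ j : (Fin r → ZMod q) →+ ShaK W L, Function.Injective j) := by
    rintro S rfl
    rfl
  exact h2 _ h

theorem rkN_eq (A B : ℤ) (L : IntermediateField ℚ QB) (inst : DecidableEq L) :
    rkN (E A B) L = @Module.finrank ℤ (Pt (E A B) L) _
      (@WeierstrassCurve.Affine.Point.instAddCommGroup L _
        ((E A B).baseChange L).toAffine inst).toAddCommMonoid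
      (@AddCommGroup.toIntModule _ (@WeierstrassCurve.Affine.Point.instAddCommGroup L _
        ((E A B).baseChange L).toAffine inst)) := by
  unfold rkN ptGrp
  have h : inst = (fun a b => Classical.propDecidable (a = b)) := Subsingleton.elim _ _
  rw [h]

end Pool.Agent.W262.SH
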